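import Pool.Agent.H963AC.Seg

set_option autoImplicit false

namespace Pool.Agent.H963AC

open Set SimpleGraph

structure Hyp {ι : Type*} (G : SimpleGraph ι) (Z : Set ι) (h : ι → ℤ) (Dn : Set ι → Prop)
    (Ch : Set ι → (ι → ℤ) → Prop) (B : Set ι) (lo a1 p a2 c' c b4 q b5 hi : ℤ) : Prop where
  tree : G.IsTree
  F1 : ∀ u ∈ Z, ∀ v ∈ Z, G.Adj u v → h v ≤ h u + 1
  F2 : ∀ u ∈ Z, ∀ v, v ∉ Z → G.Adj u v → h u ≤ lo ∨ hi ≤ h u
  hlevel : ∀ u ∈ Z, lo ≤ h u ∧ h u ≤ hi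
  Dmono : ∀ S S' : Set ι, S ⊆ S' → Dn S → Dn S'
  Duniv : Dn univ
  chZ : ∀ C ⊆ Z, Ch C h
  chneg : ∀ C ψ, Ch C ψ → Ch C (fun t => -ψ t)
  chmono : ∀ C C' ψ, C' ⊆ C → Ch C ψ → Ch C' ψ
  chstep : ∀ C ψ, Ch C ψ → ∀ u ∈ C, ∀ v ∈ C, G.Adj u v → ψ v ≤ ψ u + 1
  OS : ∀ C ψ, Ch C ψ → Conn G C → Dn C → ∃ u ∈ C, ∃ v, v ∉ C ∧ G.Adj u v ∧ ∃ w ∈ C, ψ w < ψ u
  cr1 : ∀ a b, seg G a b ⊆ Z → h a ≤ lo → a1 ≤ h b → Dn (seg G a b)
  cr2 : ∀ a b, seg G a b ⊆ Z → h a ≤ p → a2 ≤ h b → Dn (seg G a b)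
  cr3 : ∀ a b, seg G a b ⊆ Z → h a ≤ b4 → q ≤ h b → Dn (seg G a b)
  cr4 : ∀ a b, seg G a b ⊆ Z → h a ≤ b5 → hi ≤ h b → Dn (seg G a b)
  BZ : ∀ t ∈ B, t ∈ Z ∧ c' ≤ h t ∧ h t ≤ c
  Bne : B.Nonempty
  chart' : ∀ S, Conn G S → (∀ t ∈ S, t ∉ B) → ∃ ψ, Ch S ψ ∧
    ∀ s ∈ S, ∀ t ∈ S, ψ s = ψ t → s ∈ Z → t ∈ Z → lo < h s → h s < hi → h t ≤ h s + 2 ∧ h s ≤ h t + 2
  l1 : lo < a1
  l2 : a1 + 3 ≤ p
  l3 : p < a2
  l4 : a2 ≤ c'
  l5 : c' + 1 = c
  l6 : c ≤ b4
  l7 : b4 < q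
  l8 : q + 3 ≤ b5
  l9 : b5 < hi

variable {ι : Type*} {G : SimpleGraph ι} {Z : Set ι} {h : ι → ℤ} {Dn : Set ι → Prop}
    {Ch : Set ι → (ι → ℤ) → Prop} {B : Set ι} {lo a1 p a2 c' c b4 q b5 hi : ℤ}

theorem Hyp.neg (H : Hyp G Z h Dn Ch B lo a1 p a2 c' c b4 q b5 hi) :
    Hyp G Z (fun t => -h t) Dn Ch B (-hi) (-b5) (-q) (-b4) (-c) (-c') (-a2) (-p) (-a1) (-lo) where
  tree := H.tree
  F1 := by intro u hu v hv huv; have := H.F1 v hv u hu huv.symm; omega
  F2 := by intro u hu v hv huv; have := H.F2 u hu v hv huv; omega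
  hlevel := by intro u hu; have := H.hlevel u hu; omega
  Dmono := H.Dmono
  Duniv := H.Duniv
  chZ := fun C hC => H.chneg _ _ (H.chZ C hC)
  chneg := H.chneg
  chmono := H.chmono
  chstep := H.chstep
  OS := H.OS
  cr1 := by
    intro a b hab ha hb
    rw [seg_symm] at hab ⊢
    exact H.cr4 b a hab (by omega) (by omega)
  cr2 := by
    intro a b hab ha hb
    rw [seg_symm] at hab ⊢
    exact H.cr3 b a hab (by omega) (by omega)
  cr3 := by
    intro a b hab ha hb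
    rw [seg_symm] at hab ⊢
    exact H.cr2 b a hab (by omega) (by omega)
  cr4 := by
    intro a b hab ha hb
    rw [seg_symm] at hab ⊢
    exact H.cr1 b a hab (by omega) (by omega)
  BZ := by intro t ht; have := H.BZ t ht; refine ⟨this.1, ?_, ?_⟩ <;> omega
  Bne := H.Bne
  chart' := by
    intro S hS hSB
    obtain ⟨ψ, h1, h2⟩ := H.chart' S hS hSB
    refine ⟨ψ, h1, ?_⟩
    intro s hs t ht hst hsZ htZ h3 h4
    have := h2 s hs t ht hst hsZ htZ (by omega) (by omega)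
    omega
  l1 := by have := H.l9; omega
  l2 := by have := H.l8; omega
  l3 := by have := H.l7; omega
  l4 := by have := H.l6; omega
  l5 := by have := H.l5; omega
  l6 := by have := H.l4; omega
  l7 := by have := H.l3; omega
  l8 := by have := H.l2; omega
  l9 := by have := H.l1; omega

/-- the central component of a vertex -/
def KK (G : SimpleGraph ι) (Z : Set ι) (h : ι → ℤ) (p q : ℤ) (t : ι) : Set ι :=
  comp G {t | t ∈ Z ∧ p ≤ h t ∧ h t ≤ q} t

lemma KK_neg (t : ι) : KK G Z (fun t => -h t) (-q) (-p) t = KK G Z h p q t := by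
  unfold KK
  congr 1
  ext s
  constructor
  · rintro ⟨h1, h2, h3⟩
    change -q ≤ -h s at h2
    change -h s ≤ -p at h3
    exact ⟨h1, by omega, by omega⟩
  · rintro ⟨h1, h2, h3⟩; exact ⟨h1, by simpa using h3, by simpa using h2⟩

lemma KK_conn (t : ι) : Conn G (KK G Z h p q t) := comp_conn G _ _

lemma KK_mem {t s : ι} (hs : s ∈ KK G Z h p q t) : s ∈ Z ∧ p ≤ h s ∧ h s ≤ q :=
  comp_subset G _ _ hs

variable (H : Hyp G Z h Dn Ch B lo a1 p a2 c' c b4 q b5 hi)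
include H

lemma KK_self {t : ι} (ht : t ∈ B) : t ∈ KK G Z h p q t := by
  apply mem_comp_self
  have := H.BZ t ht
  have := H.l3; have := H.l4; have := H.l6; have := H.l7; have := H.l5
  exact ⟨this |> fun _ => (H.BZ t ht).1, by omega, by omega⟩

lemma KK_exit {t u v : ι} (hu : u ∈ KK G Z h p q t) (hv : v ∉ KK G Z h p q t)
    (huv : G.Adj u v) : v ∈ Z ∧ ((h u = p ∧ h v = p - 1) ∨ (h u = q ∧ h v = q + 1)) := by
  have h1 := comp_exit G hu hv huv
  have h2 := KK_mem hu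
  have l1 := H.l1; have l2 := H.l2; have l8 := H.l8; have l9 := H.l9
  have hvZ : v ∈ Z := by
    by_contra hvZ
    have := H.F2 u h2.1 v hvZ huv
    omega
  refine ⟨hvZ, ?_⟩
  have h3 := H.F1 u h2.1 v hvZ huv
  have h4 := H.F1 v hvZ u h2.1 huv.symm
  have h5 : ¬ (p ≤ h v ∧ h v ≤ q) := fun h => h1 ⟨hvZ, h⟩
  omega

lemma KK_exists_exit {t : ι} (ht : t ∈ B) :
    ∃ u ∈ KK G Z h p q t, ∃ v, v ∉ KK G Z h p q t ∧ G.Adj u v := by
  by_contra hcon
  have hall : ∀ v, v ∈ KK G Z h p q t := by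
    intro v
    by_contra hv
    exact hcon (exit_exists G H.tree (KK_self H ht) hv)
  have heq : KK G Z h p q t = univ := eq_univ_of_forall hall
  have h1 : Ch univ h := by
    apply H.chZ
    intro v _
    exact (KK_mem (hall v)).1
  obtain ⟨u, -, v, hv, -⟩ := H.OS univ h h1 (fun _ _ _ _ => subset_univ _) H.Duniv
  exact hv (mem_univ v)

lemma KK_dense {t : ι} (ht : t ∈ B) : Dn (KK G Z h p q t) := by
  obtain ⟨u, hu, v, hv, huv⟩ := KK_exists_exit H ht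
  have h1 := KK_exit H hu hv huv
  have h2 := H.BZ t ht
  have l1 := H.l3; have l2 := H.l4; have l8 := H.l5; have l9 := H.l6; have l10 := H.l7
  have hself := KK_self H ht
  rcases h1.2 with ⟨h3, -⟩ | ⟨h3, -⟩
  · have h4 := KK_conn (h := h) (Z := Z) (p := p) (q := q) t u hu t hself
    exact H.Dmono _ _ h4 (H.cr2 u t (fun x hx => (KK_mem (h4 hx)).1) (by omega) (by omega))
  · have h4 := KK_conn (h := h) (Z := Z) (p := p) (q := q) t t hself u hu
    exact H.Dmono _ _ h4 (H.cr3 t u (fun x hx => (KK_mem (h4 hx)).1) (by omega) (by omega))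

lemma KK_top {t : ι} (ht : t ∈ B) :
    ∃ u ∈ KK G Z h p q t, ∃ v, v ∉ KK G Z h p q t ∧ G.Adj u v ∧ h u = q := by
  obtain ⟨u, hu, v, hv, huv, w, hw, hwu⟩ := H.OS (KK G Z h p q t) h
    (H.chZ _ (fun x hx => (KK_mem hx).1)) (KK_conn t) (KK_dense H ht)
  have h1 := KK_exit H hu hv huv
  have h2 := KK_mem hw
  refine ⟨u, hu, v, hv, huv, ?_⟩
  omega

omit H in
/-- a good top exit of K -/
def Good (G : SimpleGraph ι) (Z : Set ι) (h : ι → ℤ) (Dn : Set ι → Prop) (q b5 : ℤ)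
    (K : Set ι) (x y d e : ι) : Prop :=
  x ∈ K ∧ y ∉ K ∧ G.Adj x y ∧ h x = q ∧ y ∈ Z ∧ h y = q + 1 ∧
  (∀ v ∈ seg G d e, v ∈ Z ∧ b5 ≤ h v) ∧ Dn (seg G d e) ∧ (∀ v ∈ seg G y e, v ∉ K) ∧
  seg G d e ⊆ seg G y e

lemma exists_good {t : ι} (ht : t ∈ B) :
    ∃ x y d e, Good G Z h Dn q b5 (KK G Z h p q t) x y d e := by
  obtain ⟨x0, hx0, v0, hv0, hadj0, hx0q⟩ := KK_top H ht
  have l3 := H.l3; have l4 := H.l4; have l5 := H.l5; have l6 := H.l6; have l7 := H.l7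
  have l1 := H.l1; have l2 := H.l2; have l8 := H.l8; have l9 := H.l9
  set K := KK G Z h p q t with hK
  have hKc : Conn G K := KK_conn t
  have htK : t ∈ K := KK_self H ht
  have hB := H.BZ t ht
  set A : Set ι := {t | t ∈ Z ∧ b4 ≤ h t ∧ h t ≤ hi} with hA
  set C := comp G A x0 with hC
  -- last visit
  have hseg : seg G t x0 ⊆ K := hKc t htK x0 hx0
  obtain ⟨w, hw, hwk, hwge⟩ := last_visit G H.tree h (a := t) (b := x0) (k := b4)
    (fun u hu v hv huv => H.F1 u (KK_mem (hseg hu)).1 v (KK_mem (hseg hv)).1 huv)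
    (by omega) (by omega)
  have hwx : seg G w x0 ⊆ C := by
    apply subset_comp G (seg_conn G H.tree w x0) ?_ (right_mem_seg G w x0)
    intro z hz
    have hzK := KK_mem (hseg (seg_right G hw hz))
    exact ⟨hzK.1, hwge z hz, by omega⟩
  have hCD : Dn C := by
    apply H.Dmono _ _ hwx
    apply H.cr3
    · intro z hz; exact (comp_subset G _ _ (hwx hz)).1
    · omega
    · omega
  obtain ⟨e, heC, v, hv, hev, w1, hw1, hw1e⟩ := H.OS C h
    (H.chZ _ (fun x hx => (comp_subset G _ _ hx).1)) (comp_conn G _ _) hCD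
  have heA := comp_subset G _ _ heC
  have hw1A := comp_subset G _ _ hw1
  have hehi : h e = hi := by
    have h1 := comp_exit G heC hv hev
    have h2 : lo ≤ h e ∧ h e ≤ hi := H.hlevel e heA.1
    by_cases hvZ : v ∈ Z
    · have h3 := H.F1 e heA.1 v hvZ hev
      have h4 := H.F1 v hvZ e heA.1 hev.symm
      have h5 : ¬ (b4 ≤ h v ∧ h v ≤ hi) := fun h => h1 ⟨hvZ, h⟩
      have h6 := H.hlevel v hvZ
      have h7 : b4 ≤ h w1 := hw1A.2.1
      have h8 : b4 ≤ h e := heA.2.1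
      omega
    · have h3 := H.F2 e heA.1 v hvZ hev
      have h8 : b4 ≤ h e := heA.2.1
      omega
  have heK : e ∉ K := by
    intro heK
    have := KK_mem heK
    omega
  have hx0C : x0 ∈ C := hwx (right_mem_seg G w x0)
  have hsC : seg G x0 e ⊆ C := comp_conn G _ _ x0 hx0C e heC
  obtain ⟨x, y, hxK, hyK, hxy, hxs, hys, hye⟩ := last_exit G H.tree K hx0 heK
  have hexit := KK_exit H hxK hyK hxy
  have hxA := comp_subset G _ _ (hsC hxs)
  have hxb : b4 ≤ h x := hxA.2.1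
  have hyC : seg G y e ⊆ C := (seg_right G hys).trans hsC
  obtain ⟨d, hd, hdk, hdge⟩ := last_visit G H.tree h (a := y) (b := e) (k := b5)
    (fun u hu v hv huv => H.F1 u (comp_subset G _ _ (hyC hu)).1 v (comp_subset G _ _ (hyC hv)).1 huv)
    (by omega) (by omega)
  refine ⟨x, y, d, e, hxK, hyK, hxy, by omega, hexit.1, by omega, ?_, ?_, hye, seg_right G hd⟩
  · intro v hv
    exact ⟨(comp_subset G _ _ (hyC (seg_right G hd hv))).1, hdge v hv⟩
  · apply H.cr4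
    · intro z hz; exact (comp_subset G _ _ (hyC (seg_right G hd hz))).1
    · omega
    · omega

omit H in
/-- the far side region -/
def RR (G : SimpleGraph ι) (h : ι → ℤ) (c : ℤ) (K : Set ι) (y : ι) : Set ι :=
  comp G {t | ¬ (t ∈ K ∧ h t ≤ c)} y

omit H in
/-- family of regions -/
def Fam (G : SimpleGraph ι) (Z : Set ι) (h : ι → ℤ) (Dn : Set ι → Prop) (B : Set ι) (p c q b5 : ℤ)
    (R : Set ι) : Prop :=
  ∃ t ∈ B, ∃ x y d e, Good G Z h Dn q b5 (KK G Z h p q t) x y d e ∧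
    R = RR G h c (KK G Z h p q t) y

lemma caseB {t : ι} (ht : t ∈ B) {x y d e : ι} (hg : Good G Z h Dn q b5 (KK G Z h p q t) x y d e)
    (hR : ∀ s ∈ RR G h c (KK G Z h p q t) y, s ∉ B) : False := by
  set K := KK G Z h p q t with hK
  set R := RR G h c K y with hRdef
  obtain ⟨hxK, hyK, hxy, hxq, hyZ, hyq, hD1, hD2, hye, hDs⟩ := hg
  have l3 := H.l3; have l4 := H.l4; have l5 := H.l5; have l6 := H.l6; have l7 := H.l7
  have l1 := H.l1; have l2 := H.l2; have l8 := H.l8; have l9 := H.l9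
  have hKc : Conn G K := KK_conn t
  have hRc : Conn G R := comp_conn G _ _
  have hyR : y ∈ R := mem_comp_self G (fun hh => hyK hh.1)
  have hyeR : seg G y e ⊆ R := subset_comp G (seg_conn G H.tree y e)
    (fun z hz hh => hye z hz hh.1) (left_mem_seg G y e)
  obtain ⟨ψ, hψ, hsep⟩ := H.chart' R hRc hR
  have hRD : Dn R := H.Dmono _ _ (hDs.trans hyeR) hD2
  -- exits of R lie in K
  have hexit : ∀ u ∈ R, ∀ v, v ∉ R → G.Adj u v → u ∈ K := by
    intro u hu v hv huv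
    have h1 := comp_exit G hu hv huv
    simp only [mem_setOf_eq, not_not] at h1
    obtain ⟨hvK, hvc⟩ := h1
    by_contra huK
    have h2 := KK_exit H hvK huK huv.symm
    have huy : u ≠ y := by
      rintro rfl
      omega
    rcases edge_fact G H.tree y huv.symm with h3 | h3
    · -- v ∈ seg y u
      have h4 := hu h3
      exact h4 ⟨hvK, hvc⟩
    · -- u ∈ seg y v
      have h4 := seg_subset_union G y x v h3
      rcases h4 with h4 | h4
      · have h5 := seg_adj G hxy.symm h4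
        simp only [mem_insert_iff, mem_singleton_iff] at h5
        rcases h5 with h5 | h5
        · exact huy h5
        · rw [h5] at huK; exact huK hxK
      · exact huK (hKc x hxK v hvK h4)
  -- exit vertices
  set E : Set ι := {u | u ∈ R ∧ ∃ v, v ∉ R ∧ G.Adj u v} with hE
  have hEK : ∀ u ∈ E, u ∈ K := fun u hu => by
    obtain ⟨h1, v, h2, h3⟩ := hu
    exact hexit u h1 v h2 h3
  have hstepR := H.chstep R ψ hψ
  have hlev : ∀ u0 ∈ E, ∀ u1 ∈ E, ∀ s ∈ seg G d e, ¬ (ψ u0 ≤ ψ s ∧ ψ s ≤ ψ u1) := by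
    intro u0 hu0 u1 hu1 s hs ⟨h1, h2⟩
    have h3 : seg G u0 u1 ⊆ R := hRc u0 hu0.1 u1 hu1.1
    have h4 : seg G u0 u1 ⊆ K := hKc u0 (hEK _ hu0) u1 (hEK _ hu1)
    obtain ⟨z, hz, hzs⟩ := ivt G H.tree ψ (a := u0) (b := u1) (k := ψ s)
      (fun u hu v hv huv => hstepR u (h3 hu) v (h3 hv) huv) h1 h2
    have h5 := KK_mem (h4 hz)
    have h6 := hD1 s hs
    have h7 := hsep z (h3 hz) s (hyeR (hDs hs)) hzs h5.1 h6.1 (by omega) (by omega)
    omega
  have hDR : ∀ s ∈ seg G d e, s ∈ R := fun s hs => hyeR (hDs hs)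
  -- E nonempty
  obtain ⟨u0, hu0R, v0, hv0, hu0v0, -⟩ := H.OS R ψ hψ hRc hRD
  have hu0E : u0 ∈ E := ⟨hu0R, v0, hv0, hu0v0⟩
  -- dichotomy for D relative to all exits
  have hdich : (∀ u ∈ E, ψ u < ψ d) ∨ (∀ u ∈ E, ψ d < ψ u) := by
    by_contra hcon
    push Not at hcon
    obtain ⟨⟨u1, hu1, h1⟩, ⟨u2, hu2, h2⟩⟩ := hcon
    exact hlev u2 hu2 u1 hu1 d (left_mem_seg G d e) ⟨h2, h1⟩
  have hdstep : ∀ u ∈ seg G d e, ∀ v ∈ seg G d e, G.Adj u v → ψ v ≤ ψ u + 1 :=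
    fun u hu v hv huv => hstepR u (hDR u hu) v (hDR v hv) huv
  rcases hdich with hdl | hdl
  · -- D above every exit
    have hDall : ∀ s ∈ seg G d e, ∀ u ∈ E, ψ u < ψ s := by
      intro s hs u hu
      by_contra hlt
      push Not at hlt
      have hss : seg G s d ⊆ seg G d e := by
        rw [seg_symm G s d]; exact seg_left G hs
      obtain ⟨z, hz, hzs⟩ := ivt G H.tree ψ (a := s) (b := d) (k := ψ u)
        (fun u hu v hv huv => hdstep u (hss hu) v (hss hv) huv) hlt (hdl u hu).le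
      exact hlev u hu u hu z (hss hz) ⟨by omega, by omega⟩
    set A' : Set ι := {s | s ∈ R ∧ ∀ u ∈ E, ψ u < ψ s} with hA'
    set C := comp G A' d with hC
    have hDC : seg G d e ⊆ C := subset_comp G (seg_conn G H.tree d e)
      (fun s hs => ⟨hDR s hs, hDall s hs⟩) (left_mem_seg G d e)
    have hCR : C ⊆ R := fun s hs => (comp_subset G _ _ hs).1
    obtain ⟨u, hu, v, hv, huv, w, hw, hwu⟩ := H.OS C ψ (H.chmono R C ψ hCR hψ)
      (comp_conn G _ _) (H.Dmono _ _ hDC hD2)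
    have h1 := comp_exit G hu hv huv
    have huA := comp_subset G _ _ hu
    have hwA := comp_subset G _ _ hw
    by_cases hvR : v ∈ R
    · have h2 : ¬ ∀ u ∈ E, ψ u < ψ v := fun hh => h1 ⟨hvR, hh⟩
      push Not at h2
      obtain ⟨u', hu', h3⟩ := h2
      have h4 := hwA.2 u' hu'
      have h5 := hstepR v hvR u huA.1 huv.symm
      omega
    · have h2 := huA.2 u ⟨huA.1, v, hvR, huv⟩
      omega
  · have hDall : ∀ s ∈ seg G d e, ∀ u ∈ E, ψ s < ψ u := by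
      intro s hs u hu
      by_contra hlt
      push Not at hlt
      have hss : seg G d s ⊆ seg G d e := seg_left G hs
      obtain ⟨z, hz, hzs⟩ := ivt G H.tree ψ (a := d) (b := s) (k := ψ u)
        (fun u hu v hv huv => hdstep u (hss hu) v (hss hv) huv) (hdl u hu).le hlt
      exact hlev u hu u hu z (hss hz) ⟨by omega, by omega⟩
    set A' : Set ι := {s | s ∈ R ∧ ∀ u ∈ E, ψ s < ψ u} with hA'
    set C := comp G A' d with hC
    have hDC : seg G d e ⊆ C := subset_comp G (seg_conn G H.tree d e)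
      (fun s hs => ⟨hDR s hs, hDall s hs⟩) (left_mem_seg G d e)
    have hCR : C ⊆ R := fun s hs => (comp_subset G _ _ hs).1
    obtain ⟨u, hu, v, hv, huv, w, hw, hwu⟩ := H.OS C (fun t => -ψ t)
      (H.chneg _ _ (H.chmono R C ψ hCR hψ))
      (comp_conn G _ _) (H.Dmono _ _ hDC hD2)
    have h1 := comp_exit G hu hv huv
    have huA := comp_subset G _ _ hu
    have hwA := comp_subset G _ _ hw
    by_cases hvR : v ∈ R
    · have h2 : ¬ ∀ u ∈ E, ψ v < ψ u := fun hh => h1 ⟨hvR, hh⟩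
      push Not at h2
      obtain ⟨u', hu', h3⟩ := h2
      have h4 := hwA.2 u' hu'
      have h5 := hstepR u huA.1 v hvR huv
      omega
    · have h2 := huA.2 u ⟨huA.1, v, hvR, huv⟩
      omega

lemma caseA {t : ι} (ht : t ∈ B) {x y d e : ι} (hg : Good G Z h Dn q b5 (KK G Z h p q t) x y d e)
    {t' : ι} (ht' : t' ∈ B) (hR : t' ∈ RR G h c (KK G Z h p q t) y)
    (htK : t' ∉ KK G Z h p q t) :
    ∃ R', (Fam G Z h Dn B p c q b5 R' ∨ Fam G Z (fun t => -h t) Dn B (-q) (-c') (-p) (-a1) R') ∧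
      R' ⊂ RR G h c (KK G Z h p q t) y := by
  set K := KK G Z h p q t with hK
  set K' := KK G Z h p q t' with hK'
  set R := RR G h c K y with hRdef
  have l3 := H.l3; have l4 := H.l4; have l5 := H.l5; have l6 := H.l6; have l7 := H.l7
  have l1 := H.l1; have l2 := H.l2; have l8 := H.l8; have l9 := H.l9
  have hKc : Conn G K := KK_conn t
  have hKc' : Conn G K' := KK_conn t'
  have hdisj : ∀ s ∈ K', s ∉ K := by
    intro s hs hsK
    apply htK
    have h1 : K' ⊆ comp G {t | t ∈ Z ∧ p ≤ h t ∧ h t ≤ q} t :=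
      subset_comp' G hKc' (fun z hz => KK_mem hz) hs hsK
    exact h1 (KK_self H ht')
  obtain ⟨x1, y1, d1, e1, hg1⟩ := exists_good H ht'
  obtain ⟨x2, y2, d2, e2, hg2⟩ := exists_good H.neg ht'
  rw [KK_neg] at hg2
  set R1 := RR G h c K' y1 with hR1
  set R2 := RR G (fun t => -h t) (-c') K' y2 with hR2
  have hx1K : x1 ∈ K' := hg1.1
  have hx2K : x2 ∈ K' := hg2.1
  have hx1q : h x1 = q := hg1.2.2.2.1
  have hx2q : -h x2 = -p := hg2.2.2.2.1
  have hx1R : x1 ∈ R1 := by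
    have h1 : y1 ∈ R1 := mem_comp_self G (fun hh => hg1.2.1 hh.1)
    by_contra hcon
    have h2 := comp_exit G h1 hcon hg1.2.2.1.symm
    apply h2
    rintro ⟨-, h3⟩
    omega
  have hx2R : x2 ∈ R2 := by
    have h1 : y2 ∈ R2 := mem_comp_self G (fun hh => hg2.2.1 hh.1)
    by_contra hcon
    have h2 := comp_exit G h1 hcon hg2.2.2.1.symm
    apply h2
    rintro ⟨-, h3⟩
    change -h x2 ≤ -c' at h3
    omega
  -- middle vertex
  have hseg : seg G x2 x1 ⊆ K' := hKc' x2 hx2K x1 hx1K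
  obtain ⟨z, hz, hzc⟩ := ivt G H.tree h (a := x2) (b := x1) (k := c)
    (fun u hu v hv huv => H.F1 u (KK_mem (hseg hu)).1 v (KK_mem (hseg hv)).1 huv)
    (by omega) (by omega)
  have hzK : z ∈ K' := hseg hz
  have hK'R : K' ⊆ R := subset_comp' G hKc' (fun s hs hh => hdisj s hs hh.1) (KK_self H ht') hR
  have hkey : (∀ s ∈ R1, s ∉ K) ∨ (∀ s ∈ R2, s ∉ K) := by
    by_contra hcon
    push Not at hcon
    obtain ⟨⟨k1, hk1, hk1K⟩, ⟨k2, hk2, hk2K⟩⟩ := hcon
    have h1 : seg G x1 k1 ⊆ R1 := comp_conn G _ _ x1 hx1R k1 hk1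
    have h2 : seg G x2 k2 ⊆ R2 := comp_conn G _ _ x2 hx2R k2 hk2
    have h3 : seg G k1 k2 ⊆ K := hKc k1 hk1K k2 hk2K
    rcases seg_subset_union G x2 k2 x1 hz with h4 | h4
    · have := comp_subset G _ _ (h2 h4)
      apply this
      exact ⟨hzK, by show -h z ≤ -c'; omega⟩
    · rcases seg_subset_union G k2 k1 x1 h4 with h5 | h5
      · rw [seg_symm] at h5
        exact hdisj z hzK (h3 h5)
      · rw [seg_symm] at h5
        have := comp_subset G _ _ (h1 h5)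
        apply this
        exact ⟨hzK, by omega⟩
  rcases hkey with hk | hk
  · refine ⟨R1, Or.inl ⟨t', ht', x1, y1, d1, e1, hg1, rfl⟩, ?_⟩
    have hsub : R1 ⊆ R := subset_comp' G (comp_conn G _ _) (fun s hs hh => hk s hs hh.1)
      hx1R (hK'R hx1K)
    refine (ssubset_iff_of_subset hsub).2 ⟨z, hK'R hzK, ?_⟩
    intro hzR
    exact comp_subset G _ _ hzR ⟨hzK, by omega⟩
  · refine ⟨R2, Or.inr ⟨t', ht', x2, y2, d2, e2, ?_, ?_⟩, ?_⟩
    · rw [KK_neg]; exact hg2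
    · rw [KK_neg]
    have hsub : R2 ⊆ R := subset_comp' G (comp_conn G _ _) (fun s hs hh => hk s hs hh.1)
      hx2R (hK'R hx2K)
    refine (ssubset_iff_of_subset hsub).2 ⟨z, hK'R hzK, ?_⟩
    intro hzR
    exact comp_subset G _ _ hzR ⟨hzK, by show -h z ≤ -c'; omega⟩

lemma fam_step {R : Set ι} (hR : Fam G Z h Dn B p c q b5 R) :
    ∃ R', (Fam G Z h Dn B p c q b5 R' ∨ Fam G Z (fun t => -h t) Dn B (-q) (-c') (-p) (-a1) R') ∧
      R' ⊂ R := by
  obtain ⟨t, ht, x, y, d, e, hg, rfl⟩ := hR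
  have l3 := H.l3; have l4 := H.l4; have l5 := H.l5; have l6 := H.l6; have l7 := H.l7
  by_cases hB : ∀ s ∈ RR G h c (KK G Z h p q t) y, s ∉ B
  · exact (caseB H ht hg hB).elim
  · push Not at hB
    obtain ⟨t', h1, h2⟩ := hB
    refine caseA H ht hg h2 h1 ?_
    intro hK
    have h3 := comp_subset G _ _ h1
    apply h3
    exact ⟨hK, (H.BZ t' h2).2.2⟩

theorem comb [Finite ι] : False := by
  classical
  have hneg : ∀ R, Fam G Z (fun t => -h t) Dn B (-q) (-c') (-p) (-a1) R →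
      ∃ R', (Fam G Z h Dn B p c q b5 R' ∨ Fam G Z (fun t => -h t) Dn B (-q) (-c') (-p) (-a1) R') ∧
      R' ⊂ R := by
    intro R hR
    obtain ⟨R', h1, h2⟩ := fam_step H.neg hR
    refine ⟨R', ?_, h2⟩
    simp only [neg_neg] at h1
    exact h1.symm
  have hex : ∃ R, (Fam G Z h Dn B p c q b5 R ∨
      Fam G Z (fun t => -h t) Dn B (-q) (-c') (-p) (-a1) R) := by
    obtain ⟨t, ht⟩ := H.Bne
    obtain ⟨x, y, d, e, hg⟩ := exists_good H ht
    exact ⟨_, Or.inl ⟨t, ht, x, y, d, e, hg, rfl⟩⟩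
  have hwf : WellFounded (fun (A B : Set ι) => A ⊂ B) := (inferInstance : IsWellFounded (Set ι) (· ⊂ ·)).wf
  obtain ⟨R, hR⟩ := hex
  have key : ∀ R : Set ι, ¬ (Fam G Z h Dn B p c q b5 R ∨
      Fam G Z (fun t => -h t) Dn B (-q) (-c') (-p) (-a1) R) := by
    intro R
    induction R using hwf.induction with
    | _ R ih =>
      intro hR
      rcases hR with hR | hR
      · obtain ⟨R', h1, h2⟩ := fam_step H hR
        exact ih R' h2 h1
      · obtain ⟨R', h1, h2⟩ := hneg R hR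
        exact ih R' h2 h1
  exact key R hR

end Pool.Agent.H963AC
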