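import Mathlib

set_option autoImplicit false

namespace Pool.Agent.H963AC

open Set Topology

section Cont
variable {X : Type} [MetricSpace X] [CompactSpace X]

/-- component separation in a closed subset of a compact space -/
lemma CS {F : Set X} (hF : IsClosed F) {x : X} (hx : x ∈ F) {O : Set X} (hO : IsOpen O)
    (hsub : connectedComponentIn F x ⊆ O) :
    ∃ Q : Set X, IsClosed Q ∧ IsClosed (F \ Q) ∧ x ∈ Q ∧ Q ⊆ O ∧ Q ⊆ F := by
  have : CompactSpace F := isCompact_iff_compactSpace.1 hF.isCompact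
  set x' : F := ⟨x, hx⟩ with hx'
  have h1 : connectedComponent x' = ⋂ s : { s : Set F // IsClopen s ∧ x' ∈ s }, (s : Set F) :=
    connectedComponent_eq_iInter_isClopen x'
  have h2 : connectedComponentIn F x = (fun z : F => (z : X)) '' connectedComponent x' :=
    connectedComponentIn_eq_image hx
  have : Nonempty { s : Set F // IsClopen s ∧ x' ∈ s } := ⟨⟨univ, isClopen_univ, mem_univ _⟩⟩
  obtain ⟨⟨s, hs1, hs2⟩, hs⟩ := exists_subset_nhds_of_isCompact'
    (V := fun s : { s : Set F // IsClopen s ∧ x' ∈ s } => (s : Set F))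
    (U := (fun z : F => (z : X)) ⁻¹' O)
    (by
      rintro ⟨s, hs1, hs2⟩ ⟨t, ht1, ht2⟩
      exact ⟨⟨s ∩ t, hs1.inter ht1, hs2, ht2⟩, inter_subset_left, inter_subset_right⟩)
    (fun s => s.2.1.1.isCompact) (fun s => s.2.1.1)
    (by
      intro z hz
      rw [← h1] at hz
      apply (hO.preimage continuous_subtype_val).mem_nhds
      apply hsub
      rw [h2]
      exact ⟨z, hz, rfl⟩)
  refine ⟨(fun z : F => (z : X)) '' s, hF.isClosedEmbedding_subtypeVal.isClosedMap s hs1.1, ?_,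
    ⟨x', hs2, rfl⟩, ?_, ?_⟩
  · have : F \ ((fun z : F => (z : X)) '' s) = (fun z : F => (z : X)) '' sᶜ := by
      ext z
      constructor
      · rintro ⟨h3, h4⟩
        exact ⟨⟨z, h3⟩, fun h5 => h4 ⟨⟨z, h3⟩, h5, rfl⟩, rfl⟩
      · rintro ⟨w, h3, rfl⟩
        refine ⟨w.2, ?_⟩
        rintro ⟨w', h4, h5⟩
        have : w' = w := Subtype.ext h5
        rw [this] at h4
        exact h3 h4
    rw [this]
    exact hF.isClosedEmbedding_subtypeVal.isClosedMap _ hs1.compl.1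
  · rintro _ ⟨z, hz, rfl⟩
    exact hs hz
  · rintro _ ⟨z, hz, rfl⟩
    exact z.2

lemma comp_closed {F : Set X} (hF : IsClosed F) (x : X) :
    IsClosed (connectedComponentIn F x) := by
  by_cases hx : x ∈ F
  · apply isClosed_of_closure_subset
    apply IsPreconnected.subset_connectedComponentIn
    · exact isPreconnected_connectedComponentIn.closure
    · exact subset_closure (mem_connectedComponentIn hx)
    · exact closure_minimal (connectedComponentIn_subset F x) hF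
  · rw [connectedComponentIn_eq_empty hx]
    exact isClosed_empty

/-- boundary bumping -/
lemma BB {K G : Set X} (hK : IsClosed K) (hKc : IsPreconnected K) (hG : IsOpen G) {y : X}
    (hy : y ∈ K) (hyG : y ∉ G) (hKG : (K ∩ G).Nonempty) :
    ∃ Y : Set X, IsClosed Y ∧ IsConnected Y ∧ y ∈ Y ∧ Y ⊆ K \ G ∧ (Y ∩ closure G).Nonempty := by
  have hF : IsClosed (K \ G) := hK.sdiff hG
  have hyF : y ∈ K \ G := ⟨hy, hyG⟩
  refine ⟨connectedComponentIn (K \ G) y, comp_closed hF y,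
    isConnected_connectedComponentIn_iff.2 hyF, mem_connectedComponentIn hyF,
    connectedComponentIn_subset _ _, ?_⟩
  by_contra hcon
  rw [not_nonempty_iff_eq_empty] at hcon
  have hsub : connectedComponentIn (K \ G) y ⊆ (closure G)ᶜ := by
    intro z hz hz'
    have : z ∈ connectedComponentIn (K \ G) y ∩ closure G := ⟨hz, hz'⟩
    rw [hcon] at this
    exact this
  obtain ⟨Q, h1, h2, h3, h4, h5⟩ := CS hF hyF isClosed_closure.isOpen_compl hsub
  have h6 : IsClosed (((K \ G) \ Q) ∪ (K ∩ closure G)) := h2.union (hK.inter isClosed_closure)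
  obtain ⟨g, hgK, hgG⟩ := hKG
  have h7 := (isPreconnected_closed_iff.1 hKc) Q _ h1 h6
    (by
      intro z hz
      by_cases hzG : z ∈ G
      · right; right; exact ⟨hz, subset_closure hzG⟩
      · by_cases hzQ : z ∈ Q
        · left; exact hzQ
        · right; left; exact ⟨⟨hz, hzG⟩, hzQ⟩)
    ⟨y, hy, h3⟩ ⟨g, hgK, Or.inr ⟨hgK, subset_closure hgG⟩⟩
  obtain ⟨z, hzK, hzQ, hz⟩ := h7
  rcases hz with hz | hz
  · exact hz.2 hzQ
  · exact h4 hzQ hz.2

end Cont

section Chains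
variable {X : Type} [MetricSpace X]

structure IsCh (δ : ℝ) (W : ℤ → Set X) : Prop where
  op : ∀ i, IsOpen (W i)
  small : ∀ i, ∀ x ∈ W i, ∀ y ∈ W i, dist x y < δ
  disj : ∀ i j, i + 2 ≤ j → ∀ x ∈ W i, x ∉ W j
  fin : ∃ N : ℤ, ∀ i, (W i).Nonempty → -N ≤ i ∧ i ≤ N

lemma IsCh.neg {δ : ℝ} {W : ℤ → Set X} (h : IsCh δ W) : IsCh δ (fun i => W (-i)) where
  op := fun i => h.op (-i)
  small := fun i => h.small (-i)
  disj := by
    intro i j hij x hx hx'
    exact h.disj (-j) (-i) (by omega) x hx' hx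
  fin := by
    obtain ⟨N, hN⟩ := h.fin
    refine ⟨N, fun i hi => ?_⟩
    have := hN (-i) hi
    omega

lemma IsCh.mono {δ δ' : ℝ} {W : ℤ → Set X} (h : IsCh δ W) (hd : δ ≤ δ') : IsCh δ' W where
  op := h.op
  small := fun i x hx y hy => (h.small i x hx y hy).trans_le hd
  disj := h.disj
  fin := h.fin

/-- chainability of proper subcontinua -/
def PCh (X : Type) [MetricSpace X] : Prop :=
  ∀ K : Set X, IsClosed K → IsConnected K → K ≠ Set.univ →
      ∀ ε : ℝ, ε > 0 → ∃ (n : ℕ) (U : Fin n → Set X),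
        (∀ i, IsOpen (U i)) ∧ (∀ i, Metric.diam (U i ∩ K) < ε) ∧ K ⊆ (⋃ i, U i) ∧
        (∀ i j : Fin n, (U i ∩ U j ∩ K).Nonempty ↔
          ((i : ℕ) ≤ (j : ℕ) + 1 ∧ (j : ℕ) ≤ (i : ℕ) + 1))

/-- chain neighbourhoods -/
lemma chain_nbhd [CompactSpace X] (hP : PCh X) {K : Set X} (hK : IsClosed K) (hKc : IsConnected K)
    (hKu : K ≠ univ) {δ : ℝ} (hδ : 0 < δ) : ∃ W : ℤ → Set X, IsCh δ W ∧ K ⊆ ⋃ i, W i := by
  obtain ⟨n, U, hUo, hUd, hUc, hUch⟩ := hP K hK hKc hKu (δ / 3) (by positivity)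
  obtain ⟨l, hl, hleb⟩ := lebesgue_number_lemma_of_metric hK.isCompact hUo hUc
  set r : ℝ := min (δ / 3) (l / 2) with hr
  have hr0 : 0 < r := lt_min (by positivity) (by positivity)
  set Ki : Fin n → Set X := fun i => {x | x ∈ K ∧ Metric.ball x l ⊆ U i} with hKi
  refine ⟨fun k => ⋃ i : Fin n, {x | ((i : ℕ) : ℤ) = k ∧ x ∈ Metric.thickening r (Ki i)}, ?_, ?_⟩
  · constructor
    · intro k
      apply isOpen_iUnion
      intro i
      by_cases h : ((i : ℕ) : ℤ) = k
      · simp only [h, true_and]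
        exact Metric.isOpen_thickening
      · simp [h]
    · intro k x hx y hy
      simp only [mem_iUnion, mem_setOf_eq] at hx hy
      obtain ⟨i, hik, hxi⟩ := hx
      obtain ⟨j, hjk, hyj⟩ := hy
      have hij : i = j := by
        apply Fin.ext
        have : ((i : ℕ) : ℤ) = ((j : ℕ) : ℤ) := by rw [hik, hjk]
        exact_mod_cast this
      subst hij
      rw [Metric.mem_thickening_iff] at hxi hyj
      obtain ⟨x', hx'1, hx'2⟩ := hxi
      obtain ⟨y', hy'1, hy'2⟩ := hyj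
      have h1 : dist x' y' ≤ Metric.diam (U i ∩ K) :=
        Metric.dist_le_diam_of_mem (isCompact_univ.isBounded.subset (subset_univ _))
          ⟨hx'1.2 (Metric.mem_ball_self hl), hx'1.1⟩ ⟨hy'1.2 (Metric.mem_ball_self hl), hy'1.1⟩
      have h2 := hUd i
      have h3 : dist x y ≤ dist x x' + dist x' y' + dist y' y := dist_triangle4 _ _ _ _
      rw [dist_comm y' y] at h3
      have h4 : r ≤ δ / 3 := min_le_left _ _
      linarith
    · intro k k' hkk x hx hx'
      simp only [mem_iUnion, mem_setOf_eq] at hx hx'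
      obtain ⟨i, hik, hxi⟩ := hx
      obtain ⟨j, hjk, hyj⟩ := hx'
      rw [Metric.mem_thickening_iff] at hxi hyj
      obtain ⟨x', hx'1, hx'2⟩ := hxi
      obtain ⟨y', hy'1, hy'2⟩ := hyj
      have h4 : r ≤ l / 2 := min_le_right _ _
      have h5 : y' ∈ Metric.ball x' l := by
        rw [Metric.mem_ball]
        have := dist_triangle_left y' x' x
        linarith
      have h6 : (U i ∩ U j ∩ K).Nonempty :=
        ⟨y', ⟨hx'1.2 h5, hy'1.2 (Metric.mem_ball_self hl)⟩, hy'1.1⟩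
      have h7 := (hUch i j).1 h6
      omega
    · refine ⟨n, ?_⟩
      intro k hk
      obtain ⟨x, hx⟩ := hk
      simp only [mem_iUnion, mem_setOf_eq] at hx
      obtain ⟨i, hik, -⟩ := hx
      have := i.2
      omega
  · intro x hx
    obtain ⟨i, hi⟩ := hleb x hx
    simp only [mem_iUnion, mem_setOf_eq]
    refine ⟨((i : ℕ) : ℤ), i, rfl, ?_⟩
    rw [Metric.mem_thickening_iff]
    exact ⟨x, ⟨hx, hi⟩, by simpa using hr0⟩

/-- the levels of a chain met by a connected set form an interval -/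
lemma level_interval {δ : ℝ} {W : ℤ → Set X} (hW : IsCh δ W) {P : Set X}
    (hP : IsPreconnected P) (hPW : P ⊆ ⋃ i, W i) {i j k : ℤ} (hi : (W i ∩ P).Nonempty)
    (hj : (W j ∩ P).Nonempty) (hik : i ≤ k) (hkj : k ≤ j) : (W k ∩ P).Nonempty := by
  by_contra hcon
  have hk : ∀ x ∈ P, x ∉ W k := fun x hx hx' => hcon ⟨x, hx', hx⟩
  have h1 : IsOpen (⋃ l : {l : ℤ // l < k}, W l) := isOpen_iUnion fun l => hW.op l
  have h2 : IsOpen (⋃ l : {l : ℤ // k < l}, W l) := isOpen_iUnion fun l => hW.op l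
  obtain ⟨x, hxi, hxP⟩ := hi
  obtain ⟨y, hyj, hyP⟩ := hj
  have hik' : i < k := lt_of_le_of_ne hik (by rintro rfl; exact hk x hxP hxi)
  have hkj' : k < j := lt_of_le_of_ne hkj (by rintro rfl; exact hk y hyP hyj)
  obtain ⟨z, hz, hz1, hz2⟩ := hP _ _ h1 h2
    (by
      intro z hz
      obtain ⟨l, hl⟩ := mem_iUnion.1 (hPW hz)
      rcases lt_trichotomy l k with h | h | h
      · left; exact mem_iUnion.2 ⟨⟨l, h⟩, hl⟩
      · rw [h] at hl; exact absurd hl (hk z hz)
      · right; exact mem_iUnion.2 ⟨⟨l, h⟩, hl⟩)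
    ⟨x, hxP, mem_iUnion.2 ⟨⟨i, hik'⟩, hxi⟩⟩ ⟨y, hyP, mem_iUnion.2 ⟨⟨j, hkj'⟩, hyj⟩⟩
  obtain ⟨⟨l1, hl1⟩, hzl1⟩ := mem_iUnion.1 hz1
  obtain ⟨⟨l2, hl2⟩, hzl2⟩ := mem_iUnion.1 hz2
  exact hW.disj l1 l2 (by omega) z hzl1 hzl2

end Chains

end Pool.Agent.H963AC
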