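import Pool.Agent.H963AC.Comb
import Pool.Agent.H963AC.Cont

set_option autoImplicit false

namespace Pool.Agent.H963AC

open Set

/-- the conclusion of the problem at a given scale -/
def Concl (X : Type) [MetricSpace X] (ε : ℝ) : Prop :=
  ∃ (m n : ℕ) (D : Fin m → Set X) (c : Fin (n + 1) → Fin m),
      (∀ k, IsOpen (D k)) ∧ (∀ k, Metric.diam (D k) < ε) ∧ (⋃ k, D k) = Set.univ ∧
      Function.Injective c ∧
      (∀ i j : Fin (n + 1), (D (c i) ∩ D (c j)).Nonempty ↔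
          ((i : ℕ) ≤ (j : ℕ) + 1 ∧ (j : ℕ) ≤ (i : ℕ) + 1)) ∧
      (∀ k, k ∉ Set.range c → ∀ i : Fin (n + 1), i ≠ 0 → D k ∩ D (c i) = ∅) ∧
      (∀ x : X, ∃ i, Metric.infDist x (D (c i)) < ε)

variable {X : Type} [MetricSpace X]

/-- nerve graph -/
abbrev gr {n : ℕ} (U : Fin n → Set X) : SimpleGraph (Fin n) :=
  SimpleGraph.fromRel (fun i j => (U i ∩ U j).Nonempty)

lemma gr_adj {n : ℕ} {U : Fin n → Set X} {i j : Fin n} :
    (gr U).Adj i j ↔ i ≠ j ∧ (U i ∩ U j).Nonempty := by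
  rw [SimpleGraph.fromRel_adj, inter_comm (U j) (U i)]
  tauto

structure IsTC {n : ℕ} (U : Fin n → Set X) : Prop where
  op : ∀ i, IsOpen (U i)
  cov : ∀ x, ∃ i, x ∈ U i
  tree : (gr U).IsTree
  ne : ∀ i, (U i).Nonempty

def Mesh {n : ℕ} (U : Fin n → Set X) (μ : ℝ) : Prop := ∀ i, ∀ x ∈ U i, ∀ y ∈ U i, dist x y < μ

lemma Mesh.mono {n : ℕ} {U : Fin n → Set X} {μ μ' : ℝ} (h : Mesh U μ) (hm : μ ≤ μ') : Mesh U μ' :=
  fun i x hx y hy => (h i x hx y hy).trans_le hm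

/-- tree-likeness -/
def TL (X : Type) [MetricSpace X] : Prop :=
  ∀ μ : ℝ, 0 < μ → ∃ (n : ℕ) (U : Fin n → Set X), IsTC U ∧ Mesh U μ

lemma tl_of [CompactSpace X] [Nonempty X]
    (h : ∀ ε : ℝ, ε > 0 → ∃ (n : ℕ) (U : Fin n → Set X),
        (∀ i, IsOpen (U i)) ∧ (∀ i, Metric.diam (U i) < ε) ∧ (⋃ i, U i) = Set.univ ∧
        (∀ i j k, i ≠ j → j ≠ k → i ≠ k → U i ∩ U j ∩ U k = ∅) ∧
        (SimpleGraph.fromRel (fun i j => (U i ∩ U j).Nonempty)).IsTree) : TL X := by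
  intro μ hμ
  obtain ⟨n, U, h1, h2, h3, -, h5⟩ := h μ hμ
  refine ⟨n, U, ⟨h1, ?_, h5, ?_⟩, ?_⟩
  · intro x
    have : x ∈ ⋃ i, U i := by rw [h3]; trivial
    exact mem_iUnion.1 this
  · intro i
    by_contra hne
    obtain ⟨x⟩ := (inferInstance : Nonempty X)
    have : x ∈ ⋃ i, U i := by rw [h3]; trivial
    obtain ⟨j, hj⟩ := mem_iUnion.1 this
    obtain ⟨w⟩ := h5.1.preconnected i j
    cases w with
    | nil => exact hne ⟨x, hj⟩
    | cons hadj _ =>
      obtain ⟨-, z, hz, -⟩ := gr_adj.1 hadj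
      exact hne ⟨z, hz⟩
  · intro i x hx y hy
    exact (Metric.dist_le_diam_of_mem (isCompact_univ.isBounded.subset (subset_univ _))
      hx hy).trans_lt (h2 i)

/-- vertices whose sets meet A -/
def TT {n : ℕ} (U : Fin n → Set X) (A : Set X) : Set (Fin n) := {t | (U t ∩ A).Nonempty}

lemma TT_conn {n : ℕ} {U : Fin n → Set X} (hU : IsTC U) {A : Set X} (hA : IsPreconnected A) :
    Conn (gr U) (TT U A) := by
  intro a ha b hb
  set S : Set (Fin n) := {t | t ∈ TT U A ∧ ∃ w : (gr U).Walk a t, ∀ v ∈ w.support, v ∈ TT U A}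
    with hS
  have haS : a ∈ S := ⟨ha, SimpleGraph.Walk.nil, by intro v hv; simp at hv; rwa [hv]⟩
  have hbS : b ∈ S := by
    by_contra hbS
    have h1 : IsOpen (⋃ t ∈ S, U t) := isOpen_biUnion fun t _ => hU.op t
    have h2 : IsOpen (⋃ t ∈ TT U A \ S, U t) := isOpen_biUnion fun t _ => hU.op t
    obtain ⟨x, hx, hxA⟩ := ha
    obtain ⟨y, hy, hyA⟩ := hb
    obtain ⟨z, hz, hz1, hz2⟩ := hA _ _ h1 h2
      (by
        intro z hz
        obtain ⟨t, ht⟩ := hU.cov z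
        have htT : t ∈ TT U A := ⟨z, ht, hz⟩
        by_cases htS : t ∈ S
        · left; exact mem_biUnion htS ht
        · right; exact mem_biUnion (⟨htT, htS⟩ : t ∈ TT U A \ S) ht)
      ⟨x, hxA, mem_biUnion haS hx⟩ ⟨y, hyA, mem_biUnion ⟨⟨y, hy, hyA⟩, hbS⟩ hy⟩
    simp only [mem_iUnion] at hz1 hz2
    obtain ⟨s, hs, hzs⟩ := hz1
    obtain ⟨t, ht, hzt⟩ := hz2
    have hst : s ≠ t := by rintro rfl; exact ht.2 hs
    have hadj : (gr U).Adj s t := gr_adj.2 ⟨hst, z, hzs, hzt⟩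
    apply ht.2
    obtain ⟨-, w, hw⟩ := hs
    refine ⟨ht.1, w.concat hadj, ?_⟩
    intro v hv
    rw [SimpleGraph.Walk.support_concat] at hv
    simp at hv
    rcases hv with hv | hv
    · exact hw v hv
    · rw [hv]; exact ht.1
  obtain ⟨-, w, hw⟩ := hbS
  intro v hv
  exact hw v (hv w)

/-- charts -/
def HasCh (δ : ℝ) {n : ℕ} (U : Fin n → Set X) (C : Set (Fin n)) (ψ : Fin n → ℤ) : Prop :=
  ∃ W : ℤ → Set X, IsCh δ W ∧ ∀ t ∈ C, U t ⊆ W (ψ t)

lemma HasCh.neg {δ : ℝ} {n : ℕ} {U : Fin n → Set X} {C : Set (Fin n)} {ψ : Fin n → ℤ}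
    (h : HasCh δ U C ψ) : HasCh δ U C (fun t => -ψ t) := by
  obtain ⟨W, h1, h2⟩ := h
  refine ⟨_, h1.neg, ?_⟩
  intro t ht
  simpa using h2 t ht

lemma HasCh.step {δ : ℝ} {n : ℕ} {U : Fin n → Set X} {C : Set (Fin n)} {ψ : Fin n → ℤ}
    (h : HasCh δ U C ψ) : ∀ u ∈ C, ∀ v ∈ C, (gr U).Adj u v → ψ v ≤ ψ u + 1 := by
  intro u hu v hv huv
  obtain ⟨W, h1, h2⟩ := h
  obtain ⟨-, z, hz1, hz2⟩ := gr_adj.1 huv
  by_contra hcon
  exact h1.disj (ψ u) (ψ v) (by omega) z (h2 u hu hz1) (h2 v hv hz2)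

/-- density of a family of vertices -/
def Dns (ε : ℝ) {n : ℕ} (U : Fin n → Set X) (C : Set (Fin n)) : Prop :=
  ∀ x, ∃ t ∈ C, ∃ y ∈ U t, dist x y < ε

lemma diam_lt' {A : Set X} {ε : ℝ} (hε : 0 < ε) (h : ∀ x ∈ A, ∀ y ∈ A, dist x y < ε / 2) :
    Metric.diam A < ε := by
  have h1 : Metric.diam A ≤ ε / 2 :=
    Metric.diam_le_of_forall_dist_le (by positivity) (fun x hx y hy => (h x hx y hy).le)
  linarith

theorem OSlem [Nonempty X] {ε : ℝ} (hε : 0 < ε) (hNC : ¬ Concl X ε) {n : ℕ} {U : Fin n → Set X}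
    (hU : IsTC U) (hmesh : Mesh U (ε / 2)) {C : Set (Fin n)} {ψ : Fin n → ℤ}
    (hch : HasCh (ε / 2) U C ψ) (hC : Conn (gr U) C) (hD : Dns ε U C) :
    ∃ u ∈ C, ∃ v, v ∉ C ∧ (gr U).Adj u v ∧ ∃ w ∈ C, ψ w < ψ u := by
  classical
  by_contra hcon
  push Not at hcon
  apply hNC
  obtain ⟨x0⟩ := (inferInstance : Nonempty X)
  obtain ⟨t0, ht0, -⟩ := hD x0
  have hCf : C.Finite := toFinite C
  obtain ⟨ta, hta, hmin⟩ := exists_min_image C ψ hCf ⟨t0, ht0⟩
  obtain ⟨tb, htb, hmax⟩ := exists_max_image C ψ hCf ⟨t0, ht0⟩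
  set N : ℕ := (ψ tb - ψ ta).toNat with hN
  have hab : ψ ta ≤ ψ tb := hmin tb htb
  have hstep := hch.step
  obtain ⟨W, hW, hUW⟩ := hch
  set L : ℤ → Set X := fun k => ⋃ t : Fin n, {x | t ∈ C ∧ ψ t = k ∧ x ∈ U t} with hL
  have hLmem : ∀ k x, x ∈ L k ↔ ∃ t, t ∈ C ∧ ψ t = k ∧ x ∈ U t := by
    intro k x; simp [hL]
  have hLopen : ∀ k, IsOpen (L k) := by
    intro k
    apply isOpen_iUnion
    intro t
    by_cases h1 : t ∈ C ∧ ψ t = k
    · simp only [h1.1, h1.2, true_and]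
      exact hU.op t
    · have : {x | t ∈ C ∧ ψ t = k ∧ x ∈ U t} = ∅ := by
        ext x
        simp only [mem_setOf_eq, mem_empty_iff_false, iff_false]
        rintro ⟨h2, h3, -⟩
        exact h1 ⟨h2, h3⟩
      rw [this]
      exact isOpen_empty
  have hLW : ∀ k, L k ⊆ W k := by
    intro k x hx
    obtain ⟨t, h1, h2, h3⟩ := (hLmem k x).1 hx
    rw [← h2]
    exact hUW t h1 h3
  have hsegC : seg (gr U) ta tb ⊆ C := hC ta hta tb htb
  -- levels attained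
  have hlev : ∀ i : Fin (N + 1), ∃ t ∈ C, ψ t = ψ ta + (i : ℕ) := by
    intro i
    have hi := i.2
    obtain ⟨v, hv, hv'⟩ := ivt (gr U) hU.tree ψ (a := ta) (b := tb) (k := ψ ta + (i : ℕ))
      (fun u hu v hv huv => hstep u (hsegC hu) v (hsegC hv) huv) (by omega) (by omega)
    exact ⟨v, hsegC hv, hv'⟩
  have hlink : ∀ i : ℕ, i + 1 < N + 1 → (L (ψ ta + i) ∩ L (ψ ta + (i + 1 : ℕ))).Nonempty := by
    intro i hi
    obtain ⟨x, y, h1, h2, h3, h4, h5, -⟩ := last_exit (gr U) hU.tree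
      {t | ψ t ≤ ψ ta + i} (a := ta) (b := tb) (by show ψ ta ≤ _; omega)
      (by show ¬ (ψ tb ≤ _); omega)
    have h6 := hstep x (hsegC h4) y (hsegC h5) h3
    simp only [mem_setOf_eq, not_le] at h1 h2
    obtain ⟨-, z, hz1, hz2⟩ := gr_adj.1 h3
    exact ⟨z, (hLmem _ _).2 ⟨x, hsegC h4, by omega, hz1⟩,
      (hLmem _ _).2 ⟨y, hsegC h5, by push_cast; omega, hz2⟩⟩
  refine ⟨(N + 1) + n, N, Fin.append (fun i : Fin (N + 1) => L (ψ ta + (i : ℕ)))
    (fun t : Fin n => if t ∈ C then ∅ else U t), Fin.castAdd n, ?_, ?_, ?_, ?_, ?_, ?_, ?_⟩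
  · intro k
    refine Fin.addCases (fun i => ?_) (fun t => ?_) k
    · rw [Fin.append_left]; exact hLopen _
    · rw [Fin.append_right]
      split_ifs
      · exact isOpen_empty
      · exact hU.op t
  · intro k
    refine Fin.addCases (fun i => ?_) (fun t => ?_) k
    · rw [Fin.append_left]
      apply diam_lt' hε
      intro x hx y hy
      exact hW.small _ x (hLW _ hx) y (hLW _ hy)
    · rw [Fin.append_right]
      split_ifs
      · simpa using hε
      · apply diam_lt' hε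
        exact hmesh t
  · apply eq_univ_of_forall
    intro x
    obtain ⟨t, ht⟩ := hU.cov x
    by_cases htC : t ∈ C
    · have h1 := hmin t htC
      have h2 := hmax t htC
      have h3 : (ψ t - ψ ta).toNat < N + 1 := by omega
      refine mem_iUnion.2 ⟨Fin.castAdd n ⟨(ψ t - ψ ta).toNat, h3⟩, ?_⟩
      rw [Fin.append_left]
      exact (hLmem _ _).2 ⟨t, htC, by simp only []; omega, ht⟩
    · refine mem_iUnion.2 ⟨Fin.natAdd (N + 1) t, ?_⟩
      rw [Fin.append_right, if_neg htC]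
      exact ht
  · intro i j hij
    exact Fin.castAdd_injective _ _ hij
  · intro i j
    rw [Fin.append_left, Fin.append_left]
    constructor
    · rintro ⟨x, hx1, hx2⟩
      by_contra hcon2
      have h1 : (i : ℕ) + 2 ≤ j ∨ (j : ℕ) + 2 ≤ i := by omega
      rcases h1 with h1 | h1
      · exact hW.disj _ _ (by omega) x (hLW _ hx1) (hLW _ hx2)
      · exact hW.disj _ _ (by omega) x (hLW _ hx2) (hLW _ hx1)
    · rintro ⟨h1, h2⟩
      have h3 : (j : ℕ) = i ∨ (j : ℕ) = i + 1 ∨ (i : ℕ) = j + 1 := by omega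
      rcases h3 with h3 | h3 | h3
      · rw [h3, inter_self]
        obtain ⟨t, ht, ht'⟩ := hlev i
        obtain ⟨x, hx⟩ := hU.ne t
        exact ⟨x, (hLmem _ _).2 ⟨t, ht, ht', hx⟩⟩
      · rw [h3]
        apply hlink
        have := j.2
        omega
      · rw [h3, inter_comm]
        apply hlink
        have := i.2
        omega
  · intro k hk i hi
    revert hk
    refine Fin.addCases (fun j => ?_) (fun t => ?_) k
    · intro hk
      exact absurd ⟨j, rfl⟩ hk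
    · intro _
      rw [Fin.append_right, Fin.append_left]
      split_ifs with htC
      · simp
      · rw [← not_nonempty_iff_eq_empty]
        rintro ⟨x, hx1, hx2⟩
        obtain ⟨s, hs1, hs2, hs3⟩ := (hLmem _ _).1 hx2
        have hadj : (gr U).Adj s t := gr_adj.2 ⟨by rintro rfl; exact htC hs1, x, hs3, hx1⟩
        have h5 := hcon s hs1 t htC hadj ta hta
        apply hi
        apply Fin.ext
        simp only [Fin.val_zero]
        omega
  · intro x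
    obtain ⟨t, ht, y, hy, hxy⟩ := hD x
    have h1 := hmin t ht
    have h2 := hmax t ht
    have h3 : (ψ t - ψ ta).toNat < N + 1 := by omega
    refine ⟨⟨(ψ t - ψ ta).toNat, h3⟩, ?_⟩
    rw [Fin.append_left]
    refine (Metric.infDist_le_dist_of_mem ?_).trans_lt hxy
    exact (hLmem _ _).2 ⟨t, ht, by simp only []; omega, hy⟩

end Pool.Agent.H963AC
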