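import Pool.Agent.H963AC.Cover

set_option autoImplicit false

namespace Pool.Agent.H963AC

open Set

variable {X : Type} [MetricSpace X]

/-- proper subcontinua -/
structure PC (P : Set X) : Prop where
  cl : IsClosed P
  con : IsConnected P
  ne : P ≠ univ

lemma far_of_closed {A : Set X} (hA : IsClosed A) {z : X} (hz : z ∉ A) :
    ∃ δ : ℝ, 0 < δ ∧ ∀ a ∈ A, δ ≤ dist z a := by
  obtain ⟨δ, hδ, h⟩ := Metric.isOpen_iff.1 hA.isOpen_compl z hz
  refine ⟨δ, hδ, ?_⟩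
  intro a ha
  by_contra hlt
  push Not at hlt
  exact h (by rw [Metric.mem_ball, dist_comm]; exact hlt) ha

lemma sep_closed [CompactSpace X] {A B : Set X} (hA : IsClosed A) (hB : IsClosed B)
    (h : Disjoint A B) : ∃ ρ : ℝ, 0 < ρ ∧ ∀ a ∈ A, ∀ b ∈ B, ρ ≤ dist a b := by
  obtain ⟨δ, hδ, hd⟩ := h.exists_thickenings hA.isCompact hB
  refine ⟨δ, hδ, ?_⟩
  intro a ha b hb
  by_contra hlt
  push Not at hlt
  have m1 : a ∈ Metric.thickening δ A := Metric.mem_thickening_iff.2 ⟨a, ha, by simpa using hδ⟩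
  have m2 : a ∈ Metric.thickening δ B := Metric.mem_thickening_iff.2 ⟨b, hb, hlt⟩
  exact (disjoint_left.1 hd m1) m2

/-- a chart near a proper subcontinuum -/
lemma chart_near [CompactSpace X] (hT : TL X) {Y : Set X} (hY : IsClosed Y) {δ : ℝ}
    {W : ℤ → Set X} (hW : IsCh δ W) (hYW : Y ⊆ ⋃ i, W i) {μ : ℝ} (hμ : 0 < μ) :
    ∃ (n : ℕ) (U : Fin n → Set X) (ψ : Fin n → ℤ), IsTC U ∧ Mesh U μ ∧
      ∀ t ∈ TT U Y, U t ⊆ W (ψ t) := by
  classical
  obtain ⟨l, hl, hleb⟩ := lebesgue_number_lemma_of_metric hY.isCompact hW.op hYW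
  obtain ⟨n, U, hU, hm⟩ := hT (min μ l) (lt_min hμ hl)
  have hex : ∀ t, ∃ i : ℤ, t ∈ TT U Y → U t ⊆ W i := by
    intro t
    by_cases ht : t ∈ TT U Y
    · obtain ⟨x, hx, hxY⟩ := ht
      obtain ⟨i, hi⟩ := hleb x hxY
      refine ⟨i, fun _ y hy => hi ?_⟩
      rw [Metric.mem_ball]
      exact (hm t y hy x hx).trans_le (min_le_right _ _)
    · exact ⟨0, fun h => absurd h ht⟩
  choose ψ hψ using hex
  exact ⟨n, U, ψ, hU, hm.mono (min_le_left _ _), hψ⟩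

lemma tri0 [CompactSpace X] (hT : TL X) (hP : PCh X) {Y : Set X} (hY : PC Y)
    {A1 A2 A3 : Set X} (h1 : IsClosed A1) (h1' : IsPreconnected A1)
    (h2 : IsClosed A2) (h2' : IsPreconnected A2) (h3 : IsClosed A3) (h3' : IsPreconnected A3)
    {z1 z2 z3 : X} (hz1 : z1 ∈ Y) (hz2 : z2 ∈ Y) (hz3 : z3 ∈ Y)
    (h11 : z1 ∉ A1) (h12 : z1 ∈ A2) (h13 : z1 ∈ A3)
    (h21 : z2 ∈ A1) (h22 : z2 ∉ A2) (h23 : z2 ∈ A3)
    (h31 : z3 ∈ A1) (h32 : z3 ∈ A2) (h33 : z3 ∉ A3) : False := by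
  obtain ⟨d1, hd1, hd1'⟩ := far_of_closed h1 h11
  obtain ⟨d2, hd2, hd2'⟩ := far_of_closed h2 h22
  obtain ⟨d3, hd3, hd3'⟩ := far_of_closed h3 h33
  set δ := min d1 (min d2 d3) with hδ
  have hδ0 : 0 < δ := lt_min hd1 (lt_min hd2 hd3)
  have e1 : δ ≤ d1 := min_le_left _ _
  have e2 : δ ≤ d2 := (min_le_right _ _).trans (min_le_left _ _)
  have e3 : δ ≤ d3 := (min_le_right _ _).trans (min_le_right _ _)
  obtain ⟨W, hW, hYW⟩ := chain_nbhd hP hY.cl hY.con hY.ne hδ0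
  obtain ⟨n, U, ψ, hU, -, hψ⟩ := chart_near hT hY.cl hW hYW one_pos
  have hch : HasCh δ U (TT U Y) ψ := ⟨W, hW, hψ⟩
  obtain ⟨t1, ht1⟩ := hU.cov z1
  obtain ⟨t2, ht2⟩ := hU.cov z2
  obtain ⟨t3, ht3⟩ := hU.cov z3
  have mid : ∀ (A : Set X), IsPreconnected A → ∀ (z : X) (t tj tk : Fin n), z ∈ U t → z ∈ Y →
      tj ∈ TT U Y → tk ∈ TT U Y → tj ∈ TT U A → tk ∈ TT U A → ψ tj ≤ ψ t → ψ t ≤ ψ tk →
      ∃ a ∈ A, dist z a < δ := by
    intro A hA z t tj tk hz hzY hj hk hjA hkA hjt htk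
    have hsY := TT_conn hU hY.con.isPreconnected tj hj tk hk
    have hsA := TT_conn hU hA tj hjA tk hkA
    obtain ⟨s, hs, hst⟩ := ivt (gr U) hU.tree ψ (a := tj) (b := tk) (k := ψ t)
      (fun u hu v hv huv => hch.step u (hsY hu) v (hsY hv) huv) hjt htk
    obtain ⟨a, ha, haA⟩ := hsA hs
    refine ⟨a, haA, ?_⟩
    have h4 := hψ s (hsY hs) ha
    have h5 := hψ t ⟨z, hz, hzY⟩ hz
    rw [hst] at h4
    exact hW.small _ z h5 a h4
  have c1 : ∀ tj tk, tj ∈ TT U Y → tk ∈ TT U Y → tj ∈ TT U A1 → tk ∈ TT U A1 →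
      ψ tj ≤ ψ t1 → ψ t1 ≤ ψ tk → False := by
    intro tj tk a b c d e f
    obtain ⟨x, hx, hx'⟩ := mid A1 h1' z1 t1 tj tk ht1 hz1 a b c d e f
    have := hd1' x hx
    linarith
  have c2 : ∀ tj tk, tj ∈ TT U Y → tk ∈ TT U Y → tj ∈ TT U A2 → tk ∈ TT U A2 →
      ψ tj ≤ ψ t2 → ψ t2 ≤ ψ tk → False := by
    intro tj tk a b c d e f
    obtain ⟨x, hx, hx'⟩ := mid A2 h2' z2 t2 tj tk ht2 hz2 a b c d e f
    have := hd2' x hx
    linarith
  have c3 : ∀ tj tk, tj ∈ TT U Y → tk ∈ TT U Y → tj ∈ TT U A3 → tk ∈ TT U A3 →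
      ψ tj ≤ ψ t3 → ψ t3 ≤ ψ tk → False := by
    intro tj tk a b c d e f
    obtain ⟨x, hx, hx'⟩ := mid A3 h3' z3 t3 tj tk ht3 hz3 a b c d e f
    have := hd3' x hx
    linarith
  have y1 : t1 ∈ TT U Y := ⟨z1, ht1, hz1⟩
  have y2 : t2 ∈ TT U Y := ⟨z2, ht2, hz2⟩
  have y3 : t3 ∈ TT U Y := ⟨z3, ht3, hz3⟩
  have a12 : t1 ∈ TT U A2 := ⟨z1, ht1, h12⟩
  have a13 : t1 ∈ TT U A3 := ⟨z1, ht1, h13⟩
  have a21 : t2 ∈ TT U A1 := ⟨z2, ht2, h21⟩
  have a23 : t2 ∈ TT U A3 := ⟨z2, ht2, h23⟩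
  have a31 : t3 ∈ TT U A1 := ⟨z3, ht3, h31⟩
  have a32 : t3 ∈ TT U A2 := ⟨z3, ht3, h32⟩
  rcases le_total (ψ t1) (ψ t2) with g12 | g12 <;> rcases le_total (ψ t2) (ψ t3) with g23 | g23 <;>
    rcases le_total (ψ t1) (ψ t3) with g13 | g13
  · exact c2 t1 t3 y1 y3 a12 a32 g12 g23
  · exact c2 t1 t3 y1 y3 a12 a32 g12 g23
  · exact c3 t1 t2 y1 y2 a13 a23 g13 g23
  · exact c1 t3 t2 y3 y2 a31 a21 g13 g12
  · exact c1 t2 t3 y2 y3 a21 a31 g12 g13
  · exact c3 t2 t1 y2 y1 a23 a13 g23 g13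
  · exact c2 t3 t1 y3 y1 a32 a12 g23 g12
  · exact c2 t3 t1 y3 y1 a32 a12 g23 g12

lemma PC.union_aux {P Q : Set X} (hP : PC P) (hQ : PC Q) (h : (P ∩ Q).Nonempty)
    (hne : P ∪ Q ≠ univ) : PC (P ∪ Q) :=
  ⟨hP.cl.union hQ.cl, hP.con.union h hQ.con, hne⟩

/-- enlarging a proper continuum towards a point -/
lemma grow [CompactSpace X] [ConnectedSpace X] {B : Set X} (hB : PC B) {x : X} {r : ℝ}
    (hr : 0 < r) (hx : ∀ b ∈ B, r ≤ dist x b) :
    ∃ P : Set X, PC P ∧ B ⊆ P ∧ x ∉ P ∧ ∃ z ∈ P, dist x z ≤ r := by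
  obtain ⟨y, hy⟩ := hB.con.nonempty
  have hyG : y ∉ Metric.ball x r := by
    rw [Metric.mem_ball, dist_comm]
    exact not_lt.2 (hx y hy)
  obtain ⟨Y, h1, h2, h3, h4, z, hz1, hz2⟩ := BB (K := univ) (G := Metric.ball x r) isClosed_univ
    isPreconnected_univ Metric.isOpen_ball (mem_univ y) hyG ⟨x, mem_univ x, Metric.mem_ball_self hr⟩
  have hxP : x ∉ Y ∪ B := by
    rintro (h | h)
    · exact (h4 h).2 (Metric.mem_ball_self hr)
    · have := hx x h
      rw [dist_self] at this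
      linarith
  refine ⟨Y ∪ B, ⟨h1.union hB.cl, h2.union ⟨y, h3, hy⟩ hB.con, ?_⟩, subset_union_right, hxP,
    z, Or.inl hz1, ?_⟩
  · intro h
    exact hxP (h ▸ mem_univ x)
  · have := Metric.closure_ball_subset_closedBall hz2
    rw [Metric.mem_closedBall, dist_comm] at this
    exact this

/-- no three proper continua cover pairwise -/
lemma tri [CompactSpace X] [ConnectedSpace X] (hT : TL X) (hP : PCh X) {A1 A2 A3 : Set X}
    (h1 : PC A1) (h2 : PC A2) (h3 : PC A3) (h12 : A1 ∪ A2 = univ) (h13 : A1 ∪ A3 = univ)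
    (h23 : A2 ∪ A3 = univ) : False := by
  obtain ⟨x1, hx1⟩ := (ne_univ_iff_exists_notMem A1).1 h1.ne
  obtain ⟨x2, hx2⟩ := (ne_univ_iff_exists_notMem A2).1 h2.ne
  obtain ⟨x3, hx3⟩ := (ne_univ_iff_exists_notMem A3).1 h3.ne
  have hc12 : ∀ x, x ∈ A1 ∨ x ∈ A2 := fun x => by
    have : x ∈ A1 ∪ A2 := by rw [h12]; trivial
    exact this
  have hc13 : ∀ x, x ∈ A1 ∨ x ∈ A3 := fun x => by
    have : x ∈ A1 ∪ A3 := by rw [h13]; trivial
    exact this
  have hc23 : ∀ x, x ∈ A2 ∨ x ∈ A3 := fun x => by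
    have : x ∈ A2 ∪ A3 := by rw [h23]; trivial
    exact this
  obtain ⟨δ, hδ, hδ'⟩ := far_of_closed h1.cl hx1
  obtain ⟨Y, hY, hAY, -, z1, hz1, hz1d⟩ := grow h1 (r := δ / 2) (x := x1) (by positivity)
    (fun b hb => by have := hδ' b hb; linarith)
  have hz1A : z1 ∉ A1 := fun h => by have := hδ' z1 h; linarith
  have k21 := (hc12 x2).resolve_right hx2
  have k31 := (hc13 x3).resolve_right hx3
  exact tri0 hT hP hY h1.cl h1.con.isPreconnected h2.cl h2.con.isPreconnected h3.cl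
    h3.con.isPreconnected hz1 (hAY k21) (hAY k31) hz1A ((hc12 z1).resolve_left hz1A)
    ((hc13 z1).resolve_left hz1A) k21 hx2 ((hc23 x2).resolve_left hx2) k31
    ((hc23 x3).resolve_right hx3) hx3

/-- directedness gives dense proper continua -/
lemma dir [CompactSpace X] [ConnectedSpace X] {B : Set X} (hB : PC B)
    (hdir : ∀ P Q : Set X, PC P → PC Q → B ⊆ P → B ⊆ Q → P ∪ Q ≠ univ) {θ : ℝ} (hθ : 0 < θ) :
    ∃ P : Set X, PC P ∧ B ⊆ P ∧ ∀ x, ∃ z ∈ P, dist x z < θ := by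
  obtain ⟨t, -, htf, htc⟩ := (isCompact_univ (X := X)).finite_cover_balls
    (show (0 : ℝ) < θ / 3 by positivity)
  have key : ∀ s : Set X, s.Finite → ∃ P : Set X, PC P ∧ B ⊆ P ∧
      ∀ x ∈ s, ∃ z ∈ P, dist x z ≤ θ / 3 := by
    intro s hs
    induction s, hs using Set.Finite.induction_on with
    | empty => exact ⟨B, hB, Subset.rfl, by simp⟩
    | @insert a s ha hs ih =>
      obtain ⟨P, hP, hBP, hPs⟩ := ih
      by_cases hfar : ∀ b ∈ B, θ / 3 ≤ dist a b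
      · obtain ⟨Q, hQ, hBQ, -, z, hz, hz'⟩ := grow hB (r := θ / 3) (by positivity) hfar
        obtain ⟨b, hb⟩ := hB.con.nonempty
        refine ⟨P ∪ Q, hP.union_aux hQ ⟨b, hBP hb, hBQ hb⟩ (hdir P Q hP hQ hBP hBQ),
          hBP.trans subset_union_left, ?_⟩
        intro x hx
        rcases hx with rfl | hx
        · exact ⟨z, Or.inr hz, hz'⟩
        · obtain ⟨w, hw, hw'⟩ := hPs x hx
          exact ⟨w, Or.inl hw, hw'⟩
      · push Not at hfar
        obtain ⟨b, hb, hb'⟩ := hfar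
        refine ⟨P, hP, hBP, ?_⟩
        intro x hx
        rcases hx with rfl | hx
        · exact ⟨b, hBP hb, hb'.le⟩
        · exact hPs x hx
  obtain ⟨P, h1, h2, h3⟩ := key t htf
  refine ⟨P, h1, h2, ?_⟩
  intro x
  have hx := htc (mem_univ x)
  simp only [mem_iUnion, Metric.mem_ball] at hx
  obtain ⟨y, hy, hxy⟩ := hx
  obtain ⟨z, hz, hz'⟩ := h3 y hy
  refine ⟨z, hz, ?_⟩
  have := dist_triangle x y z
  linarith

/-- indecomposability -/
def Ind (X : Type) [MetricSpace X] : Prop := ∀ A B : Set X, PC A → PC B → A ∪ B ≠ univ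

lemma conn_add [ConnectedSpace X] {P u v : Set X} (hP : PC P) (hu : IsOpen u) (hv : IsOpen v)
    (hcov : Pᶜ ⊆ u ∪ v) (hne : (Pᶜ ∩ v).Nonempty) (hdis : ¬ (Pᶜ ∩ (u ∩ v)).Nonempty) :
    PC (P ∪ (Pᶜ ∩ u)) := by
  have hPo : IsOpen Pᶜ := hP.cl.isOpen_compl
  have hcl : ∀ u v : Set X, IsOpen u → IsOpen v → Pᶜ ⊆ u ∪ v → ¬ (Pᶜ ∩ (u ∩ v)).Nonempty →
      IsClosed (P ∪ (Pᶜ ∩ u)) := by
    intro u v hu hv hcov hdis
    have : P ∪ (Pᶜ ∩ u) = (Pᶜ ∩ v)ᶜ := by
      ext x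
      constructor
      · rintro (h | h)
        · intro h2; exact h2.1 h
        · intro h2; exact hdis ⟨x, h.1, h.2, h2.2⟩
      · intro h
        by_cases hx : x ∈ P
        · left; exact hx
        · right
          refine ⟨hx, ?_⟩
          rcases hcov hx with h3 | h3
          · exact h3
          · exact absurd ⟨hx, h3⟩ h
    rw [this]
    exact (hPo.inter hv).isClosed_compl
  have hS := hcl u v hu hv hcov hdis
  have hS2 := hcl v u hv hu (by rwa [union_comm]) (by rwa [inter_comm v u])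
  obtain ⟨p, hp⟩ := hP.con.nonempty
  have hne1 : P ∪ (Pᶜ ∩ u) ≠ univ := by
    intro h
    obtain ⟨x, hx1, hx2⟩ := hne
    have : x ∈ P ∪ (Pᶜ ∩ u) := by rw [h]; trivial
    rcases this with h | h
    · exact hx1 h
    · exact hdis ⟨x, hx1, h.2, hx2⟩
  refine ⟨hS, ⟨⟨p, Or.inl hp⟩, ?_⟩, hne1⟩
  -- key one-sided claim
  have claim : ∀ t t' : Set X, IsClosed t → IsClosed t' → (P ∪ (Pᶜ ∩ u)) ⊆ t ∪ t' → P ⊆ t →
      (∀ x ∈ P, x ∉ t') → ((P ∪ (Pᶜ ∩ u)) ∩ t').Nonempty →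
      ((P ∪ (Pᶜ ∩ u)) ∩ (t ∩ t')).Nonempty := by
    intro t t' ht ht' hc hPt hPt' hne'
    by_contra hcon
    have h1 : IsClosed ((P ∪ (Pᶜ ∩ u)) ∩ t') := hS.inter ht'
    have h2 : ((P ∪ (Pᶜ ∩ u)) ∩ t')ᶜ = (P ∪ (Pᶜ ∩ v)) ∪ ((P ∪ (Pᶜ ∩ u)) ∩ t) := by
      ext x
      constructor
      · intro hx
        by_cases hxP : x ∈ P
        · left; left; exact hxP
        · rcases hcov hxP with h3 | h3
          · right
            refine ⟨Or.inr ⟨hxP, h3⟩, ?_⟩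
            rcases hc (Or.inr ⟨hxP, h3⟩) with h4 | h4
            · exact h4
            · exact absurd ⟨Or.inr ⟨hxP, h3⟩, h4⟩ hx
          · left; right; exact ⟨hxP, h3⟩
      · rintro ((h3 | h3) | h3) ⟨h4, h5⟩
        · exact hPt' x h3 h5
        · rcases h4 with h4 | h4
          · exact hPt' x h4 h5
          · exact hdis ⟨x, h3.1, h4.2, h3.2⟩
        · exact hcon ⟨x, h3.1, h3.2, h5⟩
    have h3 : IsOpen ((P ∪ (Pᶜ ∩ u)) ∩ t') := by
      rw [← isClosed_compl_iff, h2]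
      exact hS2.union (hS.inter ht)
    rcases isClopen_iff.1 ⟨h1, h3⟩ with h4 | h4
    · rw [h4] at hne'
      exact not_nonempty_empty hne'
    · have : p ∈ (P ∪ (Pᶜ ∩ u)) ∩ t' := by rw [h4]; trivial
      exact hPt' p hp this.2
  rw [isPreconnected_closed_iff]
  intro t t' ht ht' hc hn hn'
  by_cases h1 : (P ∩ (t ∩ t')).Nonempty
  · obtain ⟨x, hx1, hx2⟩ := h1
    exact ⟨x, Or.inl hx1, hx2⟩
  · have hPc := hP.con.isPreconnected
    rw [isPreconnected_closed_iff] at hPc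
    have hPtt : P ⊆ t ∪ t' := subset_union_left.trans hc
    have h2 : ¬ ((P ∩ t).Nonempty ∧ (P ∩ t').Nonempty) := fun h => h1 (hPc t t' ht ht' hPtt h.1 h.2)
    by_cases h3 : (P ∩ t').Nonempty
    · have h4 : ∀ x ∈ P, x ∉ t := fun x hx hxt => h2 ⟨⟨x, hx, hxt⟩, h3⟩
      have h5 : P ⊆ t' := fun x hx => (hPtt hx).resolve_left (h4 x hx)
      have := claim t' t ht' ht (by rwa [union_comm t' t]) h5 h4 hn
      rwa [inter_comm t' t] at this
    · have h4 : ∀ x ∈ P, x ∉ t' := fun x hx hxt => h3 ⟨x, hx, hxt⟩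
      have h5 : P ⊆ t := fun x hx => (hPtt hx).resolve_right (h4 x hx)
      exact claim t t' ht ht' hc h5 h4 hn'

lemma int_empty [ConnectedSpace X] (hI : Ind X) {P : Set X} (hP : PC P) : interior P = ∅ := by
  by_cases hc : IsPreconnected Pᶜ
  · have hne : (Pᶜ).Nonempty := by
      obtain ⟨x, hx⟩ := (ne_univ_iff_exists_notMem P).1 hP.ne
      exact ⟨x, hx⟩
    by_contra hint
    have h1 : PC (closure Pᶜ) := by
      refine ⟨isClosed_closure, ⟨hne.closure, hc.closure⟩, ?_⟩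
      intro h
      rw [interior_eq_compl_closure_compl, h, compl_univ] at hint
      exact hint rfl
    refine hI P (closure Pᶜ) hP h1 ?_
    apply eq_univ_of_forall
    intro x
    by_cases hx : x ∈ P
    · left; exact hx
    · right; exact subset_closure hx
  · exfalso
    unfold IsPreconnected at hc
    push Not at hc
    obtain ⟨u, v, hu, hv, hcov, hnu, hnv, hdis⟩ := hc
    have hdis' : ¬ (Pᶜ ∩ (u ∩ v)).Nonempty := by
      rw [not_nonempty_iff_eq_empty]; exact hdis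
    have h1 := conn_add hP hu hv hcov hnv hdis'
    have h2 := conn_add hP hv hu (by rwa [union_comm]) hnu (by rwa [inter_comm v u])
    refine hI _ _ h1 h2 ?_
    apply eq_univ_of_forall
    intro x
    by_cases hx : x ∈ P
    · left; left; exact hx
    · rcases hcov hx with h3 | h3
      · left; right; exact ⟨hx, h3⟩
      · right; right; exact ⟨hx, h3⟩

/-- the set of points joined to P off a small ball, closed up -/
lemma E_one [ConnectedSpace X] (hI : Ind X) {P : Set X} (hP : PC P) (x : X) {r : ℝ} (hr : 0 < r) :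
    PC (closure (P ∪ {z | z ∈ (Metric.ball x r)ᶜ ∧
      (connectedComponentIn (Metric.ball x r)ᶜ z ∩ P).Nonempty})) := by
  set F : Set X := (Metric.ball x r)ᶜ with hF
  have hFcl : IsClosed F := Metric.isOpen_ball.isClosed_compl
  set S : Set X := {z | z ∈ F ∧ (connectedComponentIn F z ∩ P).Nonempty} with hS
  obtain ⟨p, hp⟩ := hP.con.nonempty
  have hpre : IsPreconnected (P ∪ S) := by
    apply isPreconnected_of_forall p
    intro y hy
    rcases hy with hy | hy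
    · exact ⟨P, subset_union_left, hp, hy, hP.con.isPreconnected⟩
    · obtain ⟨hyF, w, hw1, hw2⟩ := hy
      refine ⟨P ∪ connectedComponentIn F y, ?_, Or.inl hp, Or.inr (mem_connectedComponentIn hyF),
        hP.con.isPreconnected.union w hw2 hw1 isPreconnected_connectedComponentIn⟩
      apply union_subset_union_right
      intro z hz
      refine ⟨connectedComponentIn_subset F y hz, w, ?_, hw2⟩
      rw [← connectedComponentIn_eq hz]
      exact hw1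
  refine ⟨isClosed_closure, ⟨⟨p, subset_closure (Or.inl hp)⟩, hpre.closure⟩, ?_⟩
  intro h
  have h1 : closure (P ∪ S) ⊆ P ∪ F :=
    closure_minimal (union_subset_union_right P (fun z hz => hz.1)) (hP.cl.union hFcl)
  have h2 : Metric.ball x r ⊆ P := by
    intro z hz
    have h3 : z ∈ P ∪ F := h1 (h ▸ mem_univ z)
    rcases h3 with h3 | h3
    · exact h3
    · exact absurd hz h3
  have h3 : Metric.ball x r ⊆ interior P := interior_maximal h2 Metric.isOpen_ball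
  rw [int_empty hI hP] at h3
  exact h3 (Metric.mem_ball_self hr)

lemma E_lem [CompactSpace X] [ConnectedSpace X] (hI : Ind X) {P : Set X} (hP : PC P) {θ : ℝ}
    (hθ : 0 < θ) : ∃ E : Set X, IsClosed E ∧ E ≠ univ ∧ P ⊆ E ∧
      ∀ y, y ∉ E → ∃ ρ : ℝ, 0 < ρ ∧ ∀ Y : Set X, IsPreconnected Y → y ∈ Y →
        (∃ a ∈ Y, ∃ b ∈ P, dist a b < ρ) → ∀ x, ∃ z ∈ Y, dist x z < θ := by
  obtain ⟨t, -, htf, htc⟩ := (isCompact_univ (X := X)).finite_cover_balls
    (show (0 : ℝ) < θ / 2 by positivity)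
  set Ex : X → Set X := fun x => closure (P ∪ {z | z ∈ (Metric.ball x (θ / 2))ᶜ ∧
      (connectedComponentIn (Metric.ball x (θ / 2))ᶜ z ∩ P).Nonempty}) with hEx
  have hEPC : ∀ x, PC (Ex x) := fun x => E_one hI hP x (by positivity)
  have hPE : ∀ x, P ⊆ Ex x := fun x => subset_union_left.trans subset_closure
  obtain ⟨p, hp⟩ := hP.con.nonempty
  have key : ∀ s : Set X, s.Finite → ∃ E : Set X, PC E ∧ P ⊆ E ∧ ∀ x ∈ s, Ex x ⊆ E := by
    intro s hs
    induction s, hs using Set.Finite.induction_on with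
    | empty => exact ⟨P, hP, Subset.rfl, by simp⟩
    | @insert a s ha hs ih =>
      obtain ⟨E, hE, hPE', hs'⟩ := ih
      refine ⟨E ∪ Ex a, hE.union_aux (hEPC a) ⟨p, hPE' hp, hPE a hp⟩ (hI _ _ hE (hEPC a)),
        hPE'.trans subset_union_left, ?_⟩
      intro x hx
      rcases hx with rfl | hx
      · exact subset_union_right
      · exact (hs' x hx).trans subset_union_left
  obtain ⟨E, hE, hPE', hEs⟩ := key t htf
  refine ⟨E, hE.cl, hE.ne, hPE', ?_⟩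
  intro y hy
  have one : ∀ x ∈ t, ∃ ρ : ℝ, 0 < ρ ∧ ∀ Y : Set X, IsPreconnected Y → y ∈ Y →
        (∃ a ∈ Y, ∃ b ∈ P, dist a b < ρ) → ∃ z ∈ Y, z ∈ Metric.ball x (θ / 2) := by
    intro x hx
    by_cases hyF : y ∈ Metric.ball x (θ / 2)
    · exact ⟨1, one_pos, fun Y _ hyY _ => ⟨y, hyY, hyF⟩⟩
    · have hFcl : IsClosed (Metric.ball x (θ / 2))ᶜ := Metric.isOpen_ball.isClosed_compl
      have hdisj : Disjoint (connectedComponentIn (Metric.ball x (θ / 2))ᶜ y) P := by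
        rw [disjoint_iff_inter_eq_empty, ← not_nonempty_iff_eq_empty]
        intro hne
        exact hy (hEs x hx (subset_closure (Or.inr ⟨hyF, hne⟩)))
      obtain ⟨ρ, hρ, hρ'⟩ := sep_closed (comp_closed hFcl y) hP.cl hdisj
      refine ⟨ρ, hρ, ?_⟩
      rintro Y hY hyY ⟨a, ha, b, hb, hab⟩
      by_contra hcon
      push Not at hcon
      have hYF : Y ⊆ (Metric.ball x (θ / 2))ᶜ := fun z hz => hcon z hz
      have h1 := hY.subset_connectedComponentIn hyY hYF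
      have := hρ' a (h1 ha) b hb
      linarith
  have all : ∀ s : Set X, s.Finite → s ⊆ t → ∃ ρ : ℝ, 0 < ρ ∧ ∀ Y : Set X, IsPreconnected Y → y ∈ Y →
        (∃ a ∈ Y, ∃ b ∈ P, dist a b < ρ) → ∀ x ∈ s, ∃ z ∈ Y, z ∈ Metric.ball x (θ / 2) := by
    intro s hs
    induction s, hs using Set.Finite.induction_on with
    | empty => intro _; exact ⟨1, one_pos, by simp⟩
    | @insert a s ha hs ih =>
      intro hst
      obtain ⟨ρ1, h1, h1'⟩ := ih ((subset_insert a s).trans hst)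
      obtain ⟨ρ2, h2, h2'⟩ := one a (hst (mem_insert a s))
      refine ⟨min ρ1 ρ2, lt_min h1 h2, ?_⟩
      rintro Y hY hyY ⟨a', ha', b, hb, hab⟩ x hx
      rcases hx with rfl | hx
      · exact h2' Y hY hyY ⟨a', ha', b, hb, hab.trans_le (min_le_right _ _)⟩
      · exact h1' Y hY hyY ⟨a', ha', b, hb, hab.trans_le (min_le_left _ _)⟩ x hx
  obtain ⟨ρ, hρ, hρ'⟩ := all t htf Subset.rfl
  refine ⟨ρ, hρ, ?_⟩
  intro Y hY hyY hab x
  have hx := htc (mem_univ x)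
  simp only [mem_iUnion] at hx
  obtain ⟨x', hx't, hxx'⟩ := hx
  obtain ⟨z, hzY, hz⟩ := hρ' Y hY hyY hab x' hx't
  refine ⟨z, hzY, ?_⟩
  rw [Metric.mem_ball] at hz hxx'
  have := dist_triangle_right x z x'
  linarith

end Pool.Agent.H963AC
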