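import Pool.Agent.H963AC.Strip

set_option autoImplicit false

namespace Pool.Agent.H963AC

open Set

variable {X : Type} [MetricSpace X]

/-- a dense interval of levels -/
def DI (θ : ℝ) (W : ℤ → Set X) (P : Set X) (s s' : ℤ) : Prop :=
  ∀ x, ∃ i, s ≤ i ∧ i ≤ s' ∧ ∃ z ∈ W i ∩ P, dist x z < θ

lemma DI.mono {θ : ℝ} {W : ℤ → Set X} {P P' : Set X} {a a' b b' : ℤ} (h : DI θ W P a b)
    (hP : P ⊆ P') (ha : a' ≤ a) (hb : b ≤ b') : DI θ W P' a' b' := by
  intro x
  obtain ⟨i, h1, h2, z, hz, hxz⟩ := h x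
  exact ⟨i, by omega, by omega, z, ⟨hz.1, hP hz.2⟩, hxz⟩

def Cuts (θ : ℝ) (W : ℤ → Set X) (P : Set X) (k : ℕ) : Prop :=
  ∃ s : ℕ → ℤ, (∀ j ≤ k, (W (s j) ∩ P).Nonempty) ∧ ∀ j < k, DI θ W P (s j) (s (j + 1))

lemma ext_right [CompactSpace X] {θ δ ρ : ℝ} {W : ℤ → Set X} {P P' : Set X} (hW : IsCh δ W)
    (hP' : PC P') (hPP : P ⊆ P') (hcov : P' ⊆ ⋃ i, W i) {y : X} (hy : y ∈ P')
    (hρ : ∀ Y : Set X, IsPreconnected Y → y ∈ Y →
        (∃ a ∈ Y, ∃ b ∈ P, dist a b < ρ) → ∀ x, ∃ z ∈ Y, dist x z < θ)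
    (hδρ : 2 * δ ≤ ρ) (hfar : ∀ p ∈ P, δ ≤ dist y p) {m b : ℤ} (hm : y ∈ W m)
    (hb : (W b ∩ P).Nonempty) (hbm : b < m) :
    ∃ M, (W M ∩ P').Nonempty ∧ DI θ W P' (b + 1) M := by
  obtain ⟨p, hpW, hpP⟩ := hb
  set G : Set X := ⋃ j : {j : ℤ // j ≤ b}, W j with hG
  have hGo : IsOpen G := isOpen_iUnion fun j => hW.op j
  have hyG : y ∉ G := by
    intro h
    obtain ⟨⟨j, hj⟩, hyj⟩ := mem_iUnion.1 h
    have h1 : ¬ (j + 2 ≤ m) := fun hc => hW.disj j m hc y hyj hm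
    have h2 : j = b := by omega
    change y ∈ W j at hyj
    rw [h2] at hyj
    have h3 := hW.small b y hyj p hpW
    have := hfar p hpP
    linarith
  obtain ⟨Y, hY1, hY2, hyY, hYsub, w, hwY, hwG⟩ := BB hP'.cl hP'.con.isPreconnected hGo hy hyG
    ⟨p, hPP hpP, mem_iUnion.2 ⟨⟨b, le_rfl⟩, hpW⟩⟩
  obtain ⟨l, hl⟩ := mem_iUnion.1 (hcov (hYsub hwY).1)
  have hlb : b < l := by
    by_contra hc
    exact (hYsub hwY).2 (mem_iUnion.2 ⟨⟨l, by omega⟩, hl⟩)
  obtain ⟨g, hgl, hgG⟩ := mem_closure_iff.1 hwG (W l) (hW.op l) hl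
  obtain ⟨⟨j, hj⟩, hgj⟩ := mem_iUnion.1 hgG
  have h1 : ¬ (j + 2 ≤ l) := fun hc => hW.disj j l hc g hgj hgl
  have h2 : j = b := by omega
  change g ∈ W j at hgj
  rw [h2] at hgj
  have h3 := hW.small l w hl g hgl
  have h4 := hW.small b g hgj p hpW
  have h5 := dist_triangle w g p
  have hYd := hρ Y hY2.isPreconnected hyY ⟨w, hwY, p, hpP, by linarith⟩
  obtain ⟨N, hN⟩ := hW.fin
  obtain ⟨M, hM, hM'⟩ := Int.exists_greatest_of_bdd (P := fun i => (W i ∩ P').Nonempty)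
    ⟨N, fun z hz => (hN z (hz.mono inter_subset_left)).2⟩ ⟨b, p, hpW, hPP hpP⟩
  refine ⟨M, hM, ?_⟩
  intro x
  obtain ⟨z, hzY, hxz⟩ := hYd x
  obtain ⟨i, hi⟩ := mem_iUnion.1 (hcov (hYsub hzY).1)
  refine ⟨i, ?_, hM' i ⟨z, hi, (hYsub hzY).1⟩, z, ⟨hi, (hYsub hzY).1⟩, hxz⟩
  by_contra hc
  exact (hYsub hzY).2 (mem_iUnion.2 ⟨⟨i, by omega⟩, hi⟩)

theorem cuts_exist [CompactSpace X] [ConnectedSpace X] [Nontrivial X] (hI : Ind X) {θ : ℝ}
    (hθ : 0 < θ) (k : ℕ) :
    ∃ P : Set X, PC P ∧ ∃ μ : ℝ, 0 < μ ∧ ∀ W : ℤ → Set X, IsCh μ W → P ⊆ ⋃ i, W i → Cuts θ W P k := by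
  induction k with
  | zero =>
    obtain ⟨x, y, hxy⟩ := exists_pair_ne X
    refine ⟨{x}, ⟨isClosed_singleton, isConnected_singleton, ?_⟩, 1, one_pos, ?_⟩
    · intro h
      have : y ∈ ({x} : Set X) := by rw [h]; trivial
      exact hxy (by simpa using this.symm)
    · intro W hW hc
      obtain ⟨i, hi⟩ := mem_iUnion.1 (hc rfl)
      exact ⟨fun _ => i, fun _ _ => ⟨x, hi, rfl⟩, fun j hj => absurd hj (Nat.not_lt_zero j)⟩
  | succ k ih =>
    obtain ⟨P, hP, μ, hμ, hcuts⟩ := ih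
    obtain ⟨E, hE, hEu, hPE, hEy⟩ := E_lem hI hP hθ
    obtain ⟨z0, hz0⟩ := (ne_univ_iff_exists_notMem E).1 hEu
    obtain ⟨r0, hr0, hr0'⟩ := far_of_closed hE hz0
    obtain ⟨P', hP', hPP', hP'd⟩ := dir hP (fun P Q h1 h2 _ _ => hI P Q h1 h2) hr0
    obtain ⟨y, hy, hyz⟩ := hP'd z0
    have hyE : y ∉ E := fun h => by have := hr0' y h; linarith
    obtain ⟨ρ, hρ, hρ'⟩ := hEy y hyE
    obtain ⟨d1, hd1, hd1'⟩ := far_of_closed hP.cl (fun h => hyE (hPE h))
    refine ⟨P', hP', min μ (min (ρ / 2) d1), lt_min hμ (lt_min (by positivity) hd1), ?_⟩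
    intro W hW hcov
    set δ := min μ (min (ρ / 2) d1) with hδ
    have e1 : δ ≤ μ := min_le_left _ _
    have e2 : δ ≤ ρ / 2 := (min_le_right _ _).trans (min_le_left _ _)
    have e3 : δ ≤ d1 := (min_le_right _ _).trans (min_le_right _ _)
    have hPW : P ⊆ ⋃ i, W i := hPP'.trans hcov
    obtain ⟨s, hs1, hs2⟩ := hcuts W (hW.mono e1) hPW
    obtain ⟨m, hm⟩ := mem_iUnion.1 (hcov hy)
    obtain ⟨N, hN⟩ := hW.fin
    have hex : ∃ i, (W i ∩ P).Nonempty := ⟨s 0, hs1 0 (Nat.zero_le _)⟩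
    obtain ⟨a, ha, ha'⟩ := Int.exists_least_of_bdd (P := fun i => (W i ∩ P).Nonempty)
      ⟨-N, fun z hz => (hN z (hz.mono inter_subset_left)).1⟩ hex
    obtain ⟨b, hb, hb'⟩ := Int.exists_greatest_of_bdd (P := fun i => (W i ∩ P).Nonempty)
      ⟨N, fun z hz => (hN z (hz.mono inter_subset_left)).2⟩ hex
    have hfar : ∀ p ∈ P, δ ≤ dist y p := fun p hp => e3.trans (hd1' p hp)
    have hmP : ¬ (W m ∩ P).Nonempty := by
      rintro ⟨p, hpW, hpP⟩
      have h1 := hW.small m y hm p hpW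
      have := hfar p hpP
      linarith
    have hcase : m < a ∨ b < m := by
      by_contra hc
      push Not at hc
      exact hmP (level_interval hW hP.con.isPreconnected hPW ha hb hc.1 hc.2)
    rcases hcase with hc | hc
    · -- extension on the left
      have hW' := hW.neg
      obtain ⟨M, hM1, hM2⟩ := ext_right (θ := θ) (ρ := ρ) (b := -a) (m := -m) hW' hP' hPP'
        (by
          intro x hx
          obtain ⟨i, hi⟩ := mem_iUnion.1 (hcov hx)
          exact mem_iUnion.2 ⟨-i, by simpa using hi⟩)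
        hy hρ' (by linarith) hfar (by simpa using hm) (by simpa using ha) (by omega)
      refine ⟨fun j => match j with
        | 0 => -M
        | j + 1 => s j, ?_, ?_⟩
      · intro j hj
        cases j with
        | zero => exact hM1
        | succ j =>
          obtain ⟨z, hz1, hz2⟩ := hs1 j (by omega)
          exact ⟨z, hz1, hPP' hz2⟩
      · intro j hj
        cases j with
        | zero =>
          intro x
          obtain ⟨i, h1, h2, z, hz, hxz⟩ := hM2 x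
          have h3 := ha' (s 0) (hs1 0 (Nat.zero_le _))
          exact ⟨-i, by show -M ≤ -i; omega, by show -i ≤ s 0; omega, z, hz, hxz⟩
        | succ j => exact (hs2 j (by omega)).mono hPP' le_rfl le_rfl
    · obtain ⟨M, hM1, hM2⟩ := ext_right (θ := θ) (ρ := ρ) hW hP' hPP' hcov hy hρ'
        (by linarith) hfar hm hb hc
      refine ⟨fun j => if j ≤ k then s j else M, ?_, ?_⟩
      · intro j hj
        by_cases hjk : j ≤ k
        · simp only [hjk, if_true]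
          obtain ⟨z, hz1, hz2⟩ := hs1 j hjk
          exact ⟨z, hz1, hPP' hz2⟩
        · simp only [hjk, if_false]
          exact hM1
      · intro j hj
        have hjk : j ≤ k := by omega
        by_cases hjk' : j + 1 ≤ k
        · simp only [hjk, hjk', if_true]
          exact (hs2 j (by omega)).mono hPP' le_rfl le_rfl
        · simp only [hjk, hjk', if_true, if_false]
          have h3 := hb' (s j) (hs1 j hjk)
          exact hM2.mono Subset.rfl (by omega) le_rfl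

lemma four_points [ConnectedSpace X] [Nontrivial X] :
    ∃ (f : Fin 4 → X) (κ : ℝ), 0 < κ ∧ ∀ i j, i ≠ j → κ ≤ dist (f i) (f j) := by
  have : Infinite X := PreconnectedSpace.infinite
  let f : Fin 4 → X := fun i => Infinite.natEmbedding X i
  have hf : Function.Injective f := by
    intro i j hij
    have := (Infinite.natEmbedding X).injective hij
    exact Fin.ext this
  have hfin : (range f).Finite := finite_range f
  have hnt : (range f).Nontrivial := by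
    refine ⟨f 0, ⟨0, rfl⟩, f 1, ⟨1, rfl⟩, ?_⟩
    intro h
    exact absurd (hf h) (by decide)
  refine ⟨f, (range f).infsep, hfin.infsep_pos_iff_nontrivial.2 hnt, ?_⟩
  intro i j hij
  exact Set.infsep_le_dist_of_mem ⟨i, rfl⟩ ⟨j, rfl⟩ (fun h => hij (hf h))

lemma gap {f : Fin 4 → X} {κ : ℝ} (hf : ∀ i j, i ≠ j → κ ≤ dist (f i) (f j)) {θ δ : ℝ}
    {W : ℤ → Set X} (hW : IsCh δ W) {P : Set X} {s s' : ℤ} (h : DI θ W P s s')
    (hk : 2 * θ + δ ≤ κ) : s + 3 ≤ s' := by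
  choose g hg1 hg2 z hz hfz using fun i => h (f i)
  have hinj : Function.Injective g := by
    intro i j hij
    by_contra hne
    have h1 := hf i j hne
    have h2 := (hz i).1
    rw [hij] at h2
    have h3 := hW.small (g j) _ h2 _ (hz j).1
    have h4 := dist_triangle4 (f i) (z i) (z j) (f j)
    have h5 := hfz i
    have h6 := hfz j
    rw [dist_comm (z j) (f j)] at h4
    linarith
  have hcard := Finset.card_le_card_of_injOn (s := Finset.univ) (t := Finset.Icc s s') g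
    (fun i _ => by simp [hg1 i, hg2 i]) hinj.injOn
  rw [Finset.card_univ, Fintype.card_fin, Int.card_Icc] at hcard
  omega

/-- charts off an open set -/
lemma lemC [CompactSpace X] (hPc : PCh X) {β : Set X} (hβ : IsOpen β) (hne : β.Nonempty) {δ : ℝ}
    (hδ : 0 < δ) : ∃ τ : ℝ, 0 < τ ∧ ∀ (n : ℕ) (U : Fin n → Set X), IsTC U → Mesh U τ →
      ∀ S, Conn (gr U) S → (∀ t ∈ S, ∀ x ∈ U t, x ∉ β) → ∃ ψ, HasCh δ U S ψ := by
  have hF : IsClosed βᶜ := hβ.isClosed_compl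
  have main : ∃ τ : ℝ, 0 < τ ∧ ∀ (n : ℕ) (U : Fin n → Set X), IsTC U → Mesh U τ →
      ∀ S, Conn (gr U) S → (∀ t ∈ S, ∀ x ∈ U t, x ∉ β) → (∃ t ∈ S, (U t ∩ βᶜ).Nonempty) →
      ∃ ψ, HasCh δ U S ψ := by
    refine hF.isCompact.induction_on (p := fun A : Set X => ∃ τ : ℝ, 0 < τ ∧
      ∀ (n : ℕ) (U : Fin n → Set X), IsTC U → Mesh U τ →
      ∀ S, Conn (gr U) S → (∀ t ∈ S, ∀ x ∈ U t, x ∉ β) → (∃ t ∈ S, (U t ∩ A).Nonempty) →
      ∃ ψ, HasCh δ U S ψ) ?_ ?_ ?_ ?_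
    · refine ⟨1, one_pos, ?_⟩
      rintro n U hU hm S hS hSβ ⟨t, ht, hne⟩
      simp at hne
    · rintro A A' hAA ⟨τ, hτ, h⟩
      refine ⟨τ, hτ, ?_⟩
      rintro n U hU hm S hS hSβ ⟨t, ht, hne⟩
      exact h n U hU hm S hS hSβ ⟨t, ht, hne.mono (inter_subset_inter_right _ hAA)⟩
    · rintro A A' ⟨τ, hτ, h⟩ ⟨τ', hτ', h'⟩
      refine ⟨min τ τ', lt_min hτ hτ', ?_⟩
      rintro n U hU hm S hS hSβ ⟨t, ht, z, hz, hzA | hzA⟩
      · exact h n U hU (hm.mono (min_le_left _ _)) S hS hSβ ⟨t, ht, z, hz, hzA⟩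
      · exact h' n U hU (hm.mono (min_le_right _ _)) S hS hSβ ⟨t, ht, z, hz, hzA⟩
    · intro x hx
      have hY : connectedComponentIn βᶜ x ≠ univ := by
        intro h
        obtain ⟨b, hb⟩ := hne
        have : b ∈ connectedComponentIn βᶜ x := by rw [h]; trivial
        exact connectedComponentIn_subset _ _ this hb
      obtain ⟨W, hW, hYW⟩ := chain_nbhd hPc (comp_closed hF x)
        (isConnected_connectedComponentIn_iff.2 hx) hY hδ
      obtain ⟨Q, hQ1, hQ2, hQ3, hQ4, hQ5⟩ := CS hF hx (isOpen_iUnion hW.op) hYW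
      refine ⟨Q, ?_, ?_⟩
      · rw [mem_nhdsWithin]
        refine ⟨(βᶜ \ Q)ᶜ, hQ2.isOpen_compl, fun h => h.2 hQ3, ?_⟩
        rintro z ⟨h1, h2⟩
        by_contra h3
        exact h1 ⟨h2, h3⟩
      · obtain ⟨ρ, hρ, hρ'⟩ := sep_closed hQ1 hQ2 disjoint_sdiff_right
        obtain ⟨l, hl, hleb⟩ := lebesgue_number_lemma_of_metric hQ1.isCompact hW.op hQ4
        refine ⟨min ρ l, lt_min hρ hl, ?_⟩
        rintro n U hU hm S hS hSβ ⟨t0, ht0, ht0Q⟩
        have hfull : ∀ t ∈ S, (U t ∩ Q).Nonempty → U t ⊆ Q := by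
          rintro t ht ⟨z, hz, hzQ⟩ y hy
          by_contra hyQ
          have h1 := hρ' z hzQ y ⟨hSβ t ht y hy, hyQ⟩
          have h2 := (hm t z hz y hy).trans_le (min_le_left _ _)
          linarith
        have hall : ∀ t ∈ S, (U t ∩ Q).Nonempty := by
          intro t1 ht1
          by_contra hcon
          obtain ⟨a, b, h1, h2, h3, h4, h5, -⟩ := last_exit (gr U) hU.tree
            {t | t ∈ S ∧ (U t ∩ Q).Nonempty} (a := t0) (b := t1) ⟨ht0, ht0Q⟩
            (fun h => hcon h.2)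
          obtain ⟨-, z, hz1, hz2⟩ := gr_adj.1 h3
          exact h2 ⟨hS t0 ht0 t1 ht1 h5, z, hz2, hfull a h1.1 h1.2 hz1⟩
        have hex : ∀ t, ∃ i : ℤ, t ∈ S → U t ⊆ W i := by
          intro t
          by_cases ht : t ∈ S
          · obtain ⟨z, hz, hzQ⟩ := hall t ht
            obtain ⟨i, hi⟩ := hleb z hzQ
            exact ⟨i, fun _ y hy => hi (Metric.mem_ball.2
              ((hm t y hy z hz).trans_le (min_le_right _ _)))⟩
          · exact ⟨0, fun h => absurd h ht⟩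
        choose ψ hψ using hex
        exact ⟨ψ, W, hW, hψ⟩
  obtain ⟨τ, hτ, h⟩ := main
  refine ⟨τ, hτ, ?_⟩
  intro n U hU hm S hS hSβ
  by_cases hSe : S.Nonempty
  · obtain ⟨t, ht⟩ := hSe
    obtain ⟨x, hx⟩ := hU.ne t
    exact h n U hU hm S hS hSβ ⟨t, ht, x, hx, hSβ t ht x hx⟩
  · refine ⟨fun _ => 0, fun _ => ∅, ⟨fun _ => isOpen_empty, ?_, ?_, ⟨0, ?_⟩⟩, ?_⟩
    · intro i x hx; exact absurd hx (notMem_empty x)
    · intro i j _ x hx; exact absurd hx (notMem_empty x)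
    · rintro i ⟨x, hx⟩; exact absurd hx (notMem_empty x)
    · intro t ht; exact absurd ⟨t, ht⟩ hSe

theorem ind_case [CompactSpace X] [ConnectedSpace X] [Nontrivial X] (hT : TL X) (hPc : PCh X)
    (hI : Ind X) {ε : ℝ} (hε : 0 < ε) (hNC : ¬ Concl X ε) : False := by
  obtain ⟨f, κ, hκ, hf⟩ := four_points (X := X)
  set θ : ℝ := min (ε / 4) (κ / 4) with hθ
  have hθ0 : 0 < θ := lt_min (by positivity) (by positivity)
  have hθ1 : θ ≤ ε / 4 := min_le_left _ _
  have hθ2 : θ ≤ κ / 4 := min_le_right _ _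
  obtain ⟨P, hP, μ0, hμ0, hcuts⟩ := cuts_exist hI hθ0 7
  set μ : ℝ := min μ0 θ with hμ
  have hμpos : 0 < μ := lt_min hμ0 hθ0
  have hμ1 : μ ≤ μ0 := min_le_left _ _
  have hμ2 : μ ≤ θ := min_le_right _ _
  obtain ⟨W, Q, hW, hPW, hPQ, hop, hcl⟩ := strip0 hPc hP hμpos
  obtain ⟨s, hs1, hs2⟩ := hcuts W (hW.mono hμ1) hPW
  have g0 : s 0 + 3 ≤ s 1 := gap hf hW (hs2 0 (by norm_num)) (by linarith)
  have g1 : s 1 + 3 ≤ s 2 := gap hf hW (hs2 1 (by norm_num)) (by linarith)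
  have g2 : s 2 + 3 ≤ s 3 := gap hf hW (hs2 2 (by norm_num)) (by linarith)
  have g3 : s 3 + 3 ≤ s 4 := gap hf hW (hs2 3 (by norm_num)) (by linarith)
  have g4 : s 4 + 3 ≤ s 5 := gap hf hW (hs2 4 (by norm_num)) (by linarith)
  have g5 : s 5 + 3 ≤ s 6 := gap hf hW (hs2 5 (by norm_num)) (by linarith)
  have g6 : s 6 + 3 ≤ s 7 := gap hf hW (hs2 6 (by norm_num)) (by linarith)
  have hlev : ∀ i, s 0 ≤ i → i ≤ s 7 → (W i ∩ P).Nonempty := fun i h1 h2 =>
    level_interval hW hP.con.isPreconnected hPW (hs1 0 (by norm_num)) (hs1 7 le_rfl) h1 h2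
  obtain ⟨F, lam, hS⟩ := strip1 hW (lo := s 0) (hi := s 7)
    (fun i h1 h2 => hop i (hlev i h1 h2)) hcl
  set V := VV W Q (s 0) (s 7) with hV
  set c : ℤ := s 3 + 1 with hc
  have hcin : s 0 ≤ c ∧ c ≤ s 7 := by omega
  obtain ⟨y, hyW, hyP⟩ := hlev c hcin.1 hcin.2
  have hyV : y ∈ V c := by rw [hV, VV_in hcin]; exact ⟨hyW, hPQ hyP⟩
  obtain ⟨r2, hr2, hrV⟩ := Metric.isOpen_iff.1 (hS.ch.op c) y hyV
  set r : ℝ := r2 / 2 with hr
  have hr0 : 0 < r := by positivity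
  set β := Metric.ball y r with hβ
  have hδC : 0 < min lam (ε / 2) := lt_min hS.lampos (by positivity)
  obtain ⟨τ, hτ, hτC⟩ := lemC hPc (β := β) Metric.isOpen_ball ⟨y, Metric.mem_ball_self hr0⟩ hδC
  obtain ⟨n, U, hU, hm⟩ := hT (min (min τ lam) (min r (ε / 2)))
    (lt_min (lt_min hτ hS.lampos) (lt_min hr0 (by positivity)))
  have hm1 : Mesh U τ := hm.mono ((min_le_left _ _).trans (min_le_left _ _))
  have hm2 : Mesh U lam := hm.mono ((min_le_left _ _).trans (min_le_right _ _))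
  have hm3 : Mesh U r := hm.mono ((min_le_right _ _).trans (min_le_left _ _))
  have hm4 : Mesh U (ε / 2) := hm.mono ((min_le_right _ _).trans (min_le_right _ _))
  obtain ⟨h, hh⟩ := exists_level U V (s 0) (s 7)
  set Z := ZZ U V (s 0) (s 7) with hZ
  have hchZ : ∀ C ⊆ Z, HasCh (ε / 2) U C h := by
    intro C hC
    exact ⟨V, hS.ch.mono (by linarith), fun t ht => (hh t (hC ht)).2.2.1⟩
  have hF1 : ∀ u ∈ Z, ∀ v ∈ Z, (gr U).Adj u v → h v ≤ h u + 1 := (hchZ Z Subset.rfl).step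
  have hcr : ∀ j < 7, ∀ a b, seg (gr U) a b ⊆ Z → h a ≤ s j → s (j + 1) ≤ h b →
      Dns ε U (seg (gr U) a b) := by
    intro j hj a b hab ha hb x
    obtain ⟨i, hi1, hi2, z, hz, hxz⟩ := hs2 j hj x
    obtain ⟨v, hv, hvi⟩ := ivt (gr U) hU.tree h (a := a) (b := b) (k := i)
      (fun u hu v hv huv => hF1 u (hab hu) v (hab hv) huv) (by omega) (by omega)
    obtain ⟨w, hw⟩ := hU.ne v
    refine ⟨v, hv, w, hw, ?_⟩
    have h1 := (hh v (hab hv)).2.2.1 hw
    rw [hvi] at h1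
    have h2 := hW.small i z hz.1 w (VV_sub _ _ _ _ _ h1)
    have h3 := dist_triangle x z w
    linarith
  have H : Hyp (gr U) Z h (Dns ε U) (HasCh (ε / 2) U) {t | (U t ∩ β).Nonempty}
      (s 0) (s 1) (s 2) (s 3) (s 3) c (s 4) (s 5) (s 6) (s 7) :=
    { tree := hU.tree
      F1 := hF1
      F2 := strip_F2 hS hm2 hh
      hlevel := fun u hu => ⟨(hh u hu).1, (hh u hu).2.1⟩
      Dmono := by
        intro S S' hSS hD x
        obtain ⟨t, ht, h1⟩ := hD x
        exact ⟨t, hSS ht, h1⟩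
      Duniv := by
        intro x
        obtain ⟨t, ht⟩ := hU.cov x
        exact ⟨t, mem_univ t, x, ht, by simpa using hε⟩
      chZ := hchZ
      chneg := fun C ψ hC => hC.neg
      chmono := by
        rintro C C' ψ hCC ⟨W', h1, h2⟩
        exact ⟨W', h1, fun t ht => h2 t (hCC ht)⟩
      chstep := fun C ψ hC => hC.step
      OS := fun C ψ hC hCc hCD => OSlem hε hNC hU hm4 hC hCc hCD
      cr1 := hcr 0 (by norm_num)
      cr2 := hcr 2 (by norm_num)
      cr3 := hcr 4 (by norm_num)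
      cr4 := hcr 6 (by norm_num)
      BZ := by
        rintro t ⟨z, hz, hzβ⟩
        have h1 : U t ⊆ V c := by
          intro w hw
          apply hrV
          rw [Metric.mem_ball] at hzβ ⊢
          have h2 := hm3 t w hw z hz
          have h3 := dist_triangle w z y
          rw [hr] at h2 hzβ
          linarith
        have htZ : t ∈ Z := ⟨c, hcin.1, hcin.2, h1⟩
        have h2 := hh t htZ
        refine ⟨htZ, ?_, h2.2.2.2 c hcin.1 hcin.2 h1⟩
        by_contra hcon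
        exact hS.ch.disj (h t) c (by omega) z (h2.2.2.1 hz) (h1 hz)
      Bne := by
        obtain ⟨t, ht⟩ := hU.cov y
        exact ⟨t, y, ht, Metric.mem_ball_self hr0⟩
      chart' := by
        intro S hSc hSB
        obtain ⟨ψ, hψ⟩ := hτC n U hU hm1 S hSc (fun t ht x hx hxβ => hSB t ht ⟨x, hx, hxβ⟩)
        obtain ⟨W', hW', hψW⟩ := hψ
        refine ⟨ψ, ⟨W', hW'.mono (min_le_right _ _), hψW⟩, ?_⟩
        intro a ha b hb hab haZ hbZ h1 h2
        refine strip_sep hS hU.ne hh (A := W' (ψ a)) ?_ (hψW a ha) (by rw [hab]; exact hψW b hb)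
          haZ hbZ h1 h2
        intro x hx y hy
        exact (hW'.small _ x hx y hy).trans_le (min_le_left _ _)
      l1 := by omega
      l2 := by omega
      l3 := by omega
      l4 := le_rfl
      l5 := rfl
      l6 := by omega
      l7 := by omega
      l8 := by omega
      l9 := by omega }
  exact comb H

theorem concl_subsingleton [CompactSpace X] [Subsingleton X] [Nonempty X] {ε : ℝ} (hε : 0 < ε) :
    Concl X ε := by
  obtain ⟨x0⟩ := (inferInstance : Nonempty X)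
  refine ⟨1, 0, fun _ => univ, fun _ => 0, fun _ => isOpen_univ, ?_, ?_, ?_, ?_, ?_, ?_⟩
  · intro _
    rw [Metric.diam_subsingleton (subsingleton_univ)]
    exact hε
  · simp [iUnion_const]
  · intro i j _
    exact Fin.ext (by omega)
  · intro i j
    have hi : i = 0 := Fin.ext (by omega)
    have hj : j = 0 := Fin.ext (by omega)
    subst hi hj
    simp
  · intro k hk
    exact absurd ⟨0, Subsingleton.elim _ _⟩ hk
  · intro x
    refine ⟨0, ?_⟩
    rw [Metric.infDist_zero_of_mem (mem_univ x)]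
    exact hε

theorem main [CompactSpace X] [ConnectedSpace X] (hT : TL X) (hPc : PCh X) {ε : ℝ} (hε : 0 < ε) :
    Concl X ε := by
  by_contra hNC
  rcases subsingleton_or_nontrivial X with hs | hn
  · exact hNC (concl_subsingleton hε)
  · by_cases hI : Ind X
    · exact ind_case hT hPc hI hε hNC
    · unfold Ind at hI
      push Not at hI
      obtain ⟨A, B, hA, hB, hAB⟩ := hI
      exact dec_case hT hPc hε hNC hA hB hAB

end Pool.Agent.H963AC
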