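import Mathlib

set_option autoImplicit false

namespace Pool.Agent.H963AC

open Set SimpleGraph

section Tree
variable {ι : Type*} (G : SimpleGraph ι)

/-- vertices lying on every walk from a to b -/
def seg (a b : ι) : Set ι := {v | ∀ w : G.Walk a b, v ∈ w.support}

/-- segment-convex sets of vertices -/
def Conn (S : Set ι) : Prop := ∀ a ∈ S, ∀ b ∈ S, seg G a b ⊆ S

/-- the component of x in A -/
def comp (A : Set ι) (x : ι) : Set ι := {y | seg G x y ⊆ A}

lemma left_mem_seg (a b : ι) : a ∈ seg G a b := fun w => w.start_mem_support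

lemma right_mem_seg (a b : ι) : b ∈ seg G a b := fun w => w.end_mem_support

lemma seg_symm_sub (a b : ι) : seg G a b ⊆ seg G b a := by
  intro v hv w
  have := hv w.reverse
  rwa [Walk.support_reverse, List.mem_reverse] at this

lemma seg_symm (a b : ι) : seg G a b = seg G b a :=
  Subset.antisymm (seg_symm_sub G a b) (seg_symm_sub G b a)

lemma seg_subset_union (a b c : ι) : seg G a c ⊆ seg G a b ∪ seg G b c := by
  intro v hv
  by_contra hcon
  simp only [mem_union, not_or] at hcon
  obtain ⟨h1, h2⟩ := hcon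
  simp only [seg, mem_setOf_eq, not_forall] at h1 h2
  obtain ⟨w1, h1⟩ := h1
  obtain ⟨w2, h2⟩ := h2
  have := hv (w1.append w2)
  rw [Walk.mem_support_append_iff] at this
  tauto

lemma seg_left {a b w : ι} (hw : w ∈ seg G a b) : seg G a w ⊆ seg G a b := by
  classical
  intro v hv p
  have h1 := hw p
  have h2 := hv (p.takeUntil w h1)
  exact Walk.support_takeUntil_subset_support p h1 h2

lemma seg_right {a b w : ι} (hw : w ∈ seg G a b) : seg G w b ⊆ seg G a b := by
  rw [seg_symm G w b, seg_symm G a b]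
  rw [seg_symm G a b] at hw
  exact seg_left G hw

lemma seg_adj {u v : ι} (h : G.Adj u v) : seg G u v ⊆ {u, v} := by
  intro x hx
  have := hx (Walk.cons h Walk.nil)
  simpa using this

lemma seg_self (a : ι) : seg G a a ⊆ {a} := by
  intro x hx
  have := hx Walk.nil
  simpa using this

lemma exists_walk (hG : G.IsTree) (a b : ι) :
    ∃ w : G.Walk a b, w.IsPath ∧ ∀ v ∈ w.support, v ∈ seg G a b := by
  classical
  obtain ⟨w0⟩ := hG.1.preconnected a b
  refine ⟨w0.toPath.1, w0.toPath.2, ?_⟩
  intro v hv w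
  have h1 : w.toPath = w0.toPath := hG.2.path_unique _ _
  rw [← h1] at hv
  exact Walk.support_toPath_subset w hv

lemma edge_fact (hG : G.IsTree) {u v : ι} (y : ι) (h : G.Adj u v) :
    u ∈ seg G y v ∨ v ∈ seg G y u := by
  classical
  obtain ⟨p, hp, hps⟩ := exists_walk G hG y u
  by_cases hv : v ∈ p.support
  · exact Or.inr (hps v hv)
  · left
    have hq : (p.concat h).IsPath := hp.concat hv h
    intro w
    have h1 : w.toPath = ⟨p.concat h, hq⟩ := hG.2.path_unique _ _
    have h2 : u ∈ (w.toPath : G.Walk y v).support := by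
      rw [h1]
      simp [Walk.support_concat]
    exact Walk.support_toPath_subset w h2

lemma comp_subset (A : Set ι) (x : ι) : comp G A x ⊆ A := fun y hy => hy (right_mem_seg G x y)

lemma mem_comp_self {A : Set ι} {x : ι} (hx : x ∈ A) : x ∈ comp G A x := by
  intro v hv
  have := seg_self G x hv
  simp only [mem_singleton_iff] at this
  rwa [this]

lemma comp_conn (A : Set ι) (x : ι) : Conn G (comp G A x) := by
  intro a ha b hb v hv
  have h1 : seg G a b ⊆ A := by
    refine (seg_subset_union G a x b).trans (union_subset ?_ hb)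
    rw [seg_symm G a x]; exact ha
  exact (seg_subset_union G x a v).trans (union_subset ha ((seg_left G hv).trans h1))

lemma subset_comp {A S : Set ι} {x : ι} (hS : Conn G S) (hSA : S ⊆ A) (hx : x ∈ S) :
    S ⊆ comp G A x := fun y hy => (hS x hx y hy).trans hSA

/-- a connected subset of A meeting the component lies in it -/
lemma subset_comp' {A S : Set ι} {x z : ι} (hS : Conn G S) (hSA : S ⊆ A) (hz : z ∈ S)
    (hz' : z ∈ comp G A x) : S ⊆ comp G A x := by
  intro y hy
  exact (seg_subset_union G x z y).trans (union_subset hz' ((hS z hz y hy).trans hSA))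

lemma comp_exit {A : Set ι} {x u v : ι} (hu : u ∈ comp G A x) (hv : v ∉ comp G A x)
    (h : G.Adj u v) : v ∉ A := by
  intro hvA
  apply hv
  refine (seg_subset_union G x u v).trans (union_subset hu ((seg_adj G h).trans ?_))
  intro z hz
  simp only [mem_insert_iff, mem_singleton_iff] at hz
  rcases hz with rfl | rfl
  · exact comp_subset G A x hu
  · exact hvA

lemma walk_last_exit (K : Set ι) {a b : ι} (w : G.Walk a b) (hb : b ∉ K) :
    (∀ u ∈ w.support, u ∉ K) ∨
    ∃ x y, x ∈ K ∧ y ∉ K ∧ G.Adj x y ∧ x ∈ w.support ∧ y ∈ w.support ∧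
      ∃ w' : G.Walk y b, ∀ u ∈ w'.support, u ∉ K := by
  induction w with
  | nil => left; intro u hu; simp at hu; rwa [hu]
  | @cons a c b hac w' ih =>
    rcases ih hb with h1 | ⟨x, y, h1, h2, h3, h4, h5, h6⟩
    · by_cases ha : a ∈ K
      · right
        exact ⟨a, c, ha, h1 c w'.start_mem_support, hac, by simp, by simp, w', h1⟩
      · left
        intro u hu
        rw [Walk.support_cons, List.mem_cons] at hu
        rcases hu with rfl | hu
        · exact ha
        · exact h1 u hu
    · right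
      exact ⟨x, y, h1, h2, h3, by simp [h4], by simp [h5], h6⟩

lemma last_exit (hG : G.IsTree) (K : Set ι) {a b : ι} (ha : a ∈ K) (hb : b ∉ K) :
    ∃ x y, x ∈ K ∧ y ∉ K ∧ G.Adj x y ∧ x ∈ seg G a b ∧ y ∈ seg G a b ∧
      ∀ u ∈ seg G y b, u ∉ K := by
  obtain ⟨w, -, hw⟩ := exists_walk G hG a b
  rcases walk_last_exit G K w hb with h | ⟨x, y, h1, h2, h3, h4, h5, w', h6⟩
  · exact absurd ha (h a w.start_mem_support)
  · exact ⟨x, y, h1, h2, h3, hw _ h4, hw _ h5, fun u hu => h6 u (hu w')⟩

lemma last_visit (hG : G.IsTree) (f : ι → ℤ) {a b : ι} {k : ℤ}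
    (hst : ∀ u ∈ seg G a b, ∀ v ∈ seg G a b, G.Adj u v → f v ≤ f u + 1)
    (ha : f a ≤ k) (hb : k ≤ f b) :
    ∃ v ∈ seg G a b, f v = k ∧ ∀ u ∈ seg G v b, k ≤ f u := by
  by_cases hk : f a = k ∧ ∀ u ∈ seg G a b, k ≤ f u
  · exact ⟨a, left_mem_seg G a b, hk.1, hk.2⟩
  · have : ∃ a' ∈ seg G a b, f a' < k := by
      by_cases h1 : f a = k
      · have h2 := hk
        simp only [h1, true_and, not_forall, not_le] at h2
        obtain ⟨u, hu, hu'⟩ := h2
        exact ⟨u, hu, hu'⟩
      · exact ⟨a, left_mem_seg G a b, lt_of_le_of_ne ha h1⟩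
    obtain ⟨a', ha', hk'⟩ := this
    obtain ⟨x, y, h1, h2, h3, h4, h5, h6⟩ := last_exit G hG {t | f t < k} (a := a') (b := b)
      hk' (by simpa using hb)
    have h4' := seg_right G ha' h4
    have h5' := seg_right G ha' h5
    refine ⟨y, h5', ?_, fun u hu => by simpa using h6 u hu⟩
    have h7 := hst x h4' y h5' h3
    simp only [mem_setOf_eq, not_lt] at h1 h2
    omega

lemma ivt (hG : G.IsTree) (f : ι → ℤ) {a b : ι} {k : ℤ}
    (hst : ∀ u ∈ seg G a b, ∀ v ∈ seg G a b, G.Adj u v → f v ≤ f u + 1)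
    (ha : f a ≤ k) (hb : k ≤ f b) : ∃ v ∈ seg G a b, f v = k := by
  obtain ⟨v, h1, h2, -⟩ := last_visit G hG f hst ha hb
  exact ⟨v, h1, h2⟩

lemma seg_conn (hG : G.IsTree) (a b : ι) : Conn G (seg G a b) := by
  intro u hu v hv z hz
  -- z on every walk u → v ; take a path from a to b; both u v lie on it
  classical
  intro w
  have h1 := seg_left G hu
  have h2 := seg_left G hv
  have h3 := (seg_subset_union G u a v) hz
  rcases h3 with h3 | h3
  · rw [seg_symm G u a] at h3
    exact h1 h3 w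
  · exact h2 h3 w

lemma exit_exists (hG : G.IsTree) {C : Set ι} {a b : ι} (ha : a ∈ C) (hb : b ∉ C) :
    ∃ u ∈ C, ∃ v, v ∉ C ∧ G.Adj u v := by
  obtain ⟨x, y, h1, h2, h3, -⟩ := last_exit G hG C ha hb
  exact ⟨x, h1, y, h2, h3⟩

end Tree

end Pool.Agent.H963AC
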