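import Pool.Agent.H963AC.Dec

set_option autoImplicit false

namespace Pool.Agent.H963AC

open Set

variable {X : Type} [MetricSpace X]

/-- chain neighbourhood closed off laterally -/
lemma strip0 [CompactSpace X] (hP : PCh X) {P : Set X} (hPC : PC P) {μ : ℝ} (hμ : 0 < μ) :
    ∃ (W : ℤ → Set X) (Q : Set X), IsCh μ W ∧ P ⊆ ⋃ i, W i ∧ P ⊆ Q ∧
      (∀ i, (W i ∩ P).Nonempty → IsOpen (W i ∩ Q)) ∧
      (∀ i, closure (W i ∩ Q) ⊆ (W (i - 1) ∩ Q) ∪ (W i ∩ Q) ∪ (W (i + 1) ∩ Q)) := by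
  obtain ⟨x, hx⟩ := (ne_univ_iff_exists_notMem P).1 hPC.ne
  obtain ⟨δ, hδ, hδ'⟩ := far_of_closed hPC.cl hx
  obtain ⟨p, hp⟩ := hPC.con.nonempty
  set η : ℝ := δ / 2 with hη
  have hη0 : 0 < η := by positivity
  set N := Metric.cthickening η P with hN
  have hNcl : IsClosed N := Metric.isClosed_cthickening
  have hxN : x ∉ N := by
    intro h
    have h1 := Metric.cthickening_subset_thickening' hδ (show η < δ by rw [hη]; linarith) P h
    rw [Metric.mem_thickening_iff] at h1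
    obtain ⟨z, hz, hz'⟩ := h1
    have := hδ' z hz
    linarith
  have hPN : P ⊆ N := Metric.self_subset_cthickening P
  set P' := connectedComponentIn N p with hP'
  have hPP' : P ⊆ P' := hPC.con.isPreconnected.subset_connectedComponentIn hp hPN
  have hP'N : P' ⊆ N := connectedComponentIn_subset N p
  have hP'u : P' ≠ univ := by
    intro h
    exact hxN (hP'N (h ▸ mem_univ x))
  obtain ⟨W, hW, hP'W⟩ := chain_nbhd hP (comp_closed hNcl p)
    (isConnected_connectedComponentIn_iff.2 (hPN hp)) hP'u (δ := min μ η) (lt_min hμ hη0)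
  obtain ⟨Q, hQ1, hQ2, hQ3, hQ4, hQ5⟩ := CS hNcl (hPN hp) (isOpen_iUnion hW.op) hP'W
  have hP'Q : P' ⊆ Q := by
    have h1 := isPreconnected_iff_subset_of_disjoint_closed.1
      (isPreconnected_connectedComponentIn (F := N) (x := p)) Q (N \ Q) hQ1 hQ2
      (by
        intro z hz
        by_cases h : z ∈ Q
        · left; exact h
        · right; exact ⟨hP'N hz, h⟩)
      (by
        ext z
        simp only [mem_inter_iff, mem_diff, mem_empty_iff_false, iff_false]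
        tauto)
    rcases h1 with h1 | h1
    · exact h1
    · exact absurd hQ3 (h1 (mem_connectedComponentIn (hPN hp))).2
  refine ⟨W, Q, hW.mono (min_le_left _ _), hPP'.trans hP'W, hPP'.trans hP'Q, ?_, ?_⟩
  · intro i hi
    obtain ⟨z, hzW, hzP⟩ := hi
    have hWN : W i ⊆ N := by
      intro y hy
      apply Metric.thickening_subset_cthickening
      rw [Metric.mem_thickening_iff]
      exact ⟨z, hzP, (hW.small i y hy z hzW).trans_le (min_le_right _ _)⟩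
    have : W i ∩ Q = W i ∩ (N \ Q)ᶜ := by
      ext y
      constructor
      · rintro ⟨h1, h2⟩; exact ⟨h1, fun h => h.2 h2⟩
      · rintro ⟨h1, h2⟩
        refine ⟨h1, ?_⟩
        by_contra h3
        exact h2 ⟨hWN h1, h3⟩
    rw [this]
    exact (hW.op i).inter hQ2.isOpen_compl
  · intro i z hz
    have hzQ : z ∈ Q := closure_minimal inter_subset_right hQ1 hz
    obtain ⟨j, hj⟩ := mem_iUnion.1 (hQ4 hzQ)
    obtain ⟨y, hy1, hy2, -⟩ := mem_closure_iff.1 hz (W j) (hW.op j) hj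
    have h1 : ¬ (i + 2 ≤ j) := fun h => hW.disj i j h y hy2 hy1
    have h2 : ¬ (j + 2 ≤ i) := fun h => hW.disj j i h y hy1 hy2
    have h3 : j = i - 1 ∨ j = i ∨ j = i + 1 := by omega
    rcases h3 with rfl | rfl | rfl
    · left; left; exact ⟨hj, hzQ⟩
    · left; right; exact ⟨hj, hzQ⟩
    · right; exact ⟨hj, hzQ⟩

structure Strip (μ : ℝ) (V : ℤ → Set X) (lo hi : ℤ) (F : Set X) (lam : ℝ) : Prop where
  ch : IsCh μ V
  lampos : 0 < lam
  inF : ∀ i, lo < i → i < hi → V i ⊆ F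
  leb : ∀ A : Set X, (∀ x ∈ A, ∀ y ∈ A, dist x y < lam) →
    (∃ i, lo ≤ i ∧ i ≤ hi ∧ A ⊆ V i) ∨ (∀ x ∈ A, x ∉ F)

open Classical in
/-- truncated strip -/
noncomputable def VV (W : ℤ → Set X) (Q : Set X) (lo hi : ℤ) (i : ℤ) : Set X :=
  if lo ≤ i ∧ i ≤ hi then W i ∩ Q else ∅

lemma VV_in {W : ℤ → Set X} {Q : Set X} {lo hi i : ℤ} (h : lo ≤ i ∧ i ≤ hi) :
    VV W Q lo hi i = W i ∩ Q := by
  unfold VV; rw [if_pos h]

lemma VV_sub (W : ℤ → Set X) (Q : Set X) (lo hi i : ℤ) : VV W Q lo hi i ⊆ W i := by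
  unfold VV
  split_ifs
  · exact inter_subset_left
  · exact empty_subset _

lemma strip1 [CompactSpace X] {μ : ℝ} {W : ℤ → Set X} {Q : Set X} (hW : IsCh μ W) {lo hi : ℤ}
    (hop : ∀ i, lo ≤ i → i ≤ hi → IsOpen (W i ∩ Q))
    (hcl : ∀ i, closure (W i ∩ Q) ⊆ (W (i - 1) ∩ Q) ∪ (W i ∩ Q) ∪ (W (i + 1) ∩ Q)) :
    ∃ F lam, Strip μ (VV W Q lo hi) lo hi F lam := by
  classical
  set V := VV W Q lo hi with hV
  set F : Set X := closure (⋃ i ∈ Finset.Ioo lo hi, V i) with hF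
  have hVop : ∀ i, IsOpen (V i) := by
    intro i
    by_cases h : lo ≤ i ∧ i ≤ hi
    · rw [hV, VV_in h]; exact hop i h.1 h.2
    · rw [hV]; unfold VV; rw [if_neg h]; exact isOpen_empty
  have hFV : F ⊆ ⋃ i ∈ Icc lo hi, V i := by
    rw [hF, Finset.closure_biUnion]
    intro x hx
    simp only [mem_iUnion, Finset.mem_Ioo] at hx
    obtain ⟨i, hi', hx⟩ := hx
    rw [hV, VV_in ⟨by omega, by omega⟩] at hx
    simp only [mem_iUnion, mem_Icc]
    rcases hcl i hx with (h | h) | h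
    · exact ⟨i - 1, ⟨by omega, by omega⟩, by rw [hV, VV_in ⟨by omega, by omega⟩]; exact h⟩
    · exact ⟨i, ⟨by omega, by omega⟩, by rw [hV, VV_in ⟨by omega, by omega⟩]; exact h⟩
    · exact ⟨i + 1, ⟨by omega, by omega⟩, by rw [hV, VV_in ⟨by omega, by omega⟩]; exact h⟩
  have hFcl : IsClosed F := isClosed_closure
  set c : ℤ → Set X := fun i => if lo ≤ i ∧ i ≤ hi then V i else Fᶜ with hc
  have hcop : ∀ i, IsOpen (c i) := by
    intro i
    simp only [hc]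
    split_ifs
    · exact hVop i
    · exact hFcl.isOpen_compl
  have hcov : (univ : Set X) ⊆ ⋃ i, c i := by
    intro x _
    by_cases hx : x ∈ F
    · have := hFV hx
      simp only [mem_iUnion, mem_Icc] at this
      obtain ⟨i, hi', hx'⟩ := this
      refine mem_iUnion.2 ⟨i, ?_⟩
      simp only [hc]
      rw [if_pos hi']
      exact hx'
    · refine mem_iUnion.2 ⟨hi + 1, ?_⟩
      simp only [hc]
      rw [if_neg (by omega)]
      exact hx
  obtain ⟨lam, hlam, hleb⟩ := lebesgue_number_lemma_of_metric isCompact_univ hcop hcov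
  refine ⟨F, lam, ⟨⟨hVop, ?_, ?_, ?_⟩, hlam, ?_, ?_⟩⟩
  · intro i x hx y hy
    exact hW.small i x (VV_sub W Q lo hi i hx) y (VV_sub W Q lo hi i hy)
  · intro i j hij x hx hx'
    exact hW.disj i j hij x (VV_sub W Q lo hi i hx) (VV_sub W Q lo hi j hx')
  · obtain ⟨N, hN⟩ := hW.fin
    exact ⟨N, fun i hi' => hN i (hi'.mono (VV_sub W Q lo hi i))⟩
  · intro i h1 h2
    refine (subset_biUnion_of_mem (u := V) ?_).trans subset_closure
    simp [h1, h2]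
  · intro A hA
    by_cases hne : A.Nonempty
    · obtain ⟨x, hx⟩ := hne
      obtain ⟨i, hi'⟩ := hleb x (mem_univ x)
      have hAi : A ⊆ c i := fun y hy => hi' (Metric.mem_ball.2 (hA y hy x hx))
      simp only [hc] at hAi
      split_ifs at hAi with h
      · left; exact ⟨i, h.1, h.2, hAi⟩
      · right; exact hAi
    · right
      intro x hx
      exact absurd ⟨x, hx⟩ hne

/-- strip vertices -/
def ZZ {n : ℕ} (U : Fin n → Set X) (V : ℤ → Set X) (lo hi : ℤ) : Set (Fin n) :=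
  {t | ∃ i, lo ≤ i ∧ i ≤ hi ∧ U t ⊆ V i}

lemma exists_level {n : ℕ} (U : Fin n → Set X) (V : ℤ → Set X) (lo hi : ℤ) :
    ∃ h : Fin n → ℤ, ∀ t ∈ ZZ U V lo hi, lo ≤ h t ∧ h t ≤ hi ∧ U t ⊆ V (h t) ∧
      ∀ i, lo ≤ i → i ≤ hi → U t ⊆ V i → h t ≤ i := by
  classical
  have : ∀ t, ∃ k : ℤ, t ∈ ZZ U V lo hi → lo ≤ k ∧ k ≤ hi ∧ U t ⊆ V k ∧
      ∀ i, lo ≤ i → i ≤ hi → U t ⊆ V i → k ≤ i := by
    intro t
    by_cases ht : t ∈ ZZ U V lo hi
    · obtain ⟨k, ⟨hk1, hk2, hk3⟩, hk4⟩ := Int.exists_least_of_bdd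
        (P := fun i => lo ≤ i ∧ i ≤ hi ∧ U t ⊆ V i) ⟨lo, fun z hz => hz.1⟩ ht
      exact ⟨k, fun _ => ⟨hk1, hk2, hk3, fun i a b c => hk4 i ⟨a, b, c⟩⟩⟩
    · exact ⟨0, fun h => absurd h ht⟩
  choose h hh using this
  exact ⟨h, hh⟩

section S
variable {μ : ℝ} {V : ℤ → Set X} {lo hi : ℤ} {F : Set X} {lam : ℝ} {n : ℕ} {U : Fin n → Set X}
  {h : Fin n → ℤ}

lemma strip_F2 (hS : Strip μ V lo hi F lam) (hm : Mesh U lam)
    (hh : ∀ t ∈ ZZ U V lo hi, lo ≤ h t ∧ h t ≤ hi ∧ U t ⊆ V (h t) ∧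
      ∀ i, lo ≤ i → i ≤ hi → U t ⊆ V i → h t ≤ i) :
    ∀ u ∈ ZZ U V lo hi, ∀ v, v ∉ ZZ U V lo hi → (gr U).Adj u v → h u ≤ lo ∨ hi ≤ h u := by
  intro u hu v hv huv
  obtain ⟨-, z, hz1, hz2⟩ := gr_adj.1 huv
  have h1 : ∀ x ∈ U v, x ∉ F := by
    rcases hS.leb (U v) (hm v) with h | h
    · exact absurd h hv
    · exact h
  by_contra hcon
  push Not at hcon
  exact h1 z hz2 (hS.inF (h u) hcon.1 hcon.2 ((hh u hu).2.2.1 hz1))

lemma strip_sep (hS : Strip μ V lo hi F lam) (hne : ∀ i, (U i).Nonempty)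
    (hh : ∀ t ∈ ZZ U V lo hi, lo ≤ h t ∧ h t ≤ hi ∧ U t ⊆ V (h t) ∧
      ∀ i, lo ≤ i → i ≤ hi → U t ⊆ V i → h t ≤ i) {A : Set X}
    (hA : ∀ x ∈ A, ∀ y ∈ A, dist x y < lam) {s t : Fin n} (hs : U s ⊆ A) (ht : U t ⊆ A)
    (hsZ : s ∈ ZZ U V lo hi) (htZ : t ∈ ZZ U V lo hi) (h1 : lo < h s) (h2 : h s < hi) :
    h t ≤ h s + 2 ∧ h s ≤ h t + 2 := by
  obtain ⟨x, hx⟩ := hne s
  obtain ⟨y, hy⟩ := hne t
  rcases hS.leb A hA with ⟨i, h3, h4, h5⟩ | h3
  · have c1 := hS.ch.disj i (h s)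
    have c2 := hS.ch.disj (h s) i
    have c3 := hS.ch.disj i (h t)
    have c4 := hS.ch.disj (h t) i
    have e1 := (hh s hsZ).2.2.1 hx
    have e2 := h5 (hs hx)
    have e3 := (hh t htZ).2.2.1 hy
    have e4 := h5 (ht hy)
    have f1 : ¬ (i + 2 ≤ h s) := fun hc => c1 hc x e2 e1
    have f2 : ¬ (h s + 2 ≤ i) := fun hc => c2 hc x e1 e2
    have f3 : ¬ (i + 2 ≤ h t) := fun hc => c3 hc y e4 e3
    have f4 : ¬ (h t + 2 ≤ i) := fun hc => c4 hc y e3 e4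
    omega
  · exact absurd (hS.inF (h s) h1 h2 ((hh s hsZ).2.2.1 hx)) (h3 x (hs hx))

end S

theorem dec_case [CompactSpace X] [ConnectedSpace X] (hT : TL X) (hPc : PCh X) {ε : ℝ}
    (hε : 0 < ε) (hNC : ¬ Concl X ε) {A B : Set X} (hA : PC A) (hB : PC B)
    (hAB : A ∪ B = univ) : False := by
  have hcov : ∀ x, x ∈ A ∨ x ∈ B := fun x => by
    have : x ∈ A ∪ B := by rw [hAB]; trivial
    exact this
  obtain ⟨P, hP, hBP, hPd⟩ := dir hB (by
    intro P Q hP hQ hBP hBQ hPQ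
    refine tri hT hPc hA hP hQ ?_ ?_ hPQ
    · exact eq_univ_of_forall fun x => (hcov x).imp_right fun h => hBP h
    · exact eq_univ_of_forall fun x => (hcov x).imp_right fun h => hBQ h)
    (show (0 : ℝ) < ε / 2 by positivity)
  obtain ⟨b0, hb0⟩ := (ne_univ_iff_exists_notMem A).1 hA.ne
  have hb0B : b0 ∈ B := (hcov b0).resolve_left hb0
  obtain ⟨μ0, hμ0, hfar⟩ := far_of_closed hA.cl hb0
  obtain ⟨W, Q, hW, hPW, hPQ, hop, hcl⟩ := strip0 hPc hP (μ := min (ε / 2) μ0)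
    (lt_min (by positivity) hμ0)
  obtain ⟨N, hN⟩ := hW.fin
  obtain ⟨p, hp⟩ := hP.con.nonempty
  have hex : ∃ i, (W i ∩ P).Nonempty := by
    obtain ⟨i, hi⟩ := mem_iUnion.1 (hPW hp)
    exact ⟨i, p, hi, hp⟩
  obtain ⟨lo, hlo, hlo'⟩ := Int.exists_least_of_bdd (P := fun i => (W i ∩ P).Nonempty)
    ⟨-N, fun z hz => (hN z (hz.mono inter_subset_left)).1⟩ hex
  obtain ⟨hi, hhi, hhi'⟩ := Int.exists_greatest_of_bdd (P := fun i => (W i ∩ P).Nonempty)
    ⟨N, fun z hz => (hN z (hz.mono inter_subset_left)).2⟩ hex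
  have hlev : ∀ i, lo ≤ i → i ≤ hi → (W i ∩ P).Nonempty := fun i h1 h2 =>
    level_interval hW hP.con.isPreconnected hPW hlo hhi h1 h2
  obtain ⟨F, lam, hS⟩ := strip1 hW (lo := lo) (hi := hi) (fun i h1 h2 => hop i (hlev i h1 h2)) hcl
  set V := VV W Q lo hi with hV
  have hPV : P ⊆ ⋃ i, V i := by
    intro x hx
    obtain ⟨i, hi'⟩ := mem_iUnion.1 (hPW hx)
    refine mem_iUnion.2 ⟨i, ?_⟩
    rw [hV, VV_in ⟨hlo' i ⟨x, hi', hx⟩, hhi' i ⟨x, hi', hx⟩⟩]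
    exact ⟨hi', hPQ hx⟩
  obtain ⟨l2, hl2, hleb2⟩ := lebesgue_number_lemma_of_metric hP.cl.isCompact hS.ch.op hPV
  obtain ⟨n, U, hU, hm⟩ := hT (min (ε / 2) (min lam l2))
    (lt_min (by positivity) (lt_min hS.lampos hl2))
  have hm1 : Mesh U (ε / 2) := hm.mono (min_le_left _ _)
  have hm2 : Mesh U lam := hm.mono ((min_le_right _ _).trans (min_le_left _ _))
  have hm3 : Mesh U l2 := hm.mono ((min_le_right _ _).trans (min_le_right _ _))
  set Z := ZZ U V lo hi with hZ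
  have hTZ : TT U P ⊆ Z := by
    intro t ht
    obtain ⟨x, hx, hxP⟩ := ht
    obtain ⟨i, hi'⟩ := hleb2 x hxP
    have h1 : U t ⊆ V i := fun y hy => hi' (Metric.mem_ball.2 (hm3 t y hy x hx))
    have h2 : lo ≤ i ∧ i ≤ hi := by
      by_contra hc
      have := h1 hx
      rw [hV] at this
      unfold VV at this
      rw [if_neg hc] at this
      exact this
    exact ⟨i, h2.1, h2.2, h1⟩
  obtain ⟨h, hh⟩ := exists_level U V lo hi
  obtain ⟨tP, htP⟩ := hU.cov p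
  have htPT : tP ∈ TT U P := ⟨p, htP, hp⟩
  set K := comp (gr U) Z tP with hK
  have hTK : TT U P ⊆ K := subset_comp _ (TT_conn hU hP.con.isPreconnected) hTZ htPT
  have hKZ : K ⊆ Z := comp_subset _ _ _
  have hKc : Conn (gr U) K := comp_conn _ _ _
  have hKD : Dns ε U K := by
    intro x
    obtain ⟨z, hz, hxz⟩ := hPd x
    obtain ⟨t, ht⟩ := hU.cov z
    exact ⟨t, hTK ⟨z, ht, hz⟩, z, ht, by linarith⟩
  have hchK : HasCh (ε / 2) U K h := by
    refine ⟨V, hS.ch.mono (min_le_left _ _), ?_⟩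
    intro t ht
    exact (hh t (hKZ ht)).2.2.1
  have hF2 := strip_F2 hS hm2 hh
  -- exits have outside neighbour in A
  have hexA : ∀ u ∈ K, ∀ v, v ∉ K → (gr U).Adj u v → u ∈ TT U A ∧ (h u ≤ lo ∨ hi ≤ h u) := by
    intro u hu v hv huv
    have hvZ : v ∉ Z := comp_exit _ hu hv huv
    refine ⟨?_, hF2 u (hKZ hu) v hvZ huv⟩
    obtain ⟨-, z, hz1, hz2⟩ := gr_adj.1 huv
    refine ⟨z, hz1, ?_⟩
    rcases hcov z with h1 | h1
    · exact h1
    · exact absurd (hTZ ⟨z, hz2, hBP h1⟩) hvZ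
  obtain ⟨u, hu, v, hv, huv, w, hw, hwu⟩ := OSlem hε hNC hU hm1 hchK hKc hKD
  obtain ⟨u', hu', v', hv', huv', w', hw', hwu'⟩ := OSlem hε hNC hU hm1 hchK.neg hKc hKD
  obtain ⟨huA, hul⟩ := hexA u hu v hv huv
  obtain ⟨huA', hul'⟩ := hexA u' hu' v' hv' huv'
  have b1 := hh u (hKZ hu)
  have b2 := hh u' (hKZ hu')
  have b3 := hh w (hKZ hw)
  have b4 := hh w' (hKZ hw')
  have hsegA : seg (gr U) u' u ⊆ TT U A := TT_conn hU hA.con.isPreconnected u' huA' u huA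
  have hsegK : seg (gr U) u' u ⊆ K := hKc u' hu' u hu
  obtain ⟨t, ht⟩ := hU.cov b0
  have htK : t ∈ K := hTK ⟨b0, ht, hBP hb0B⟩
  have b5 := hh t (hKZ htK)
  obtain ⟨s, hs, hst⟩ := ivt (gr U) hU.tree h (a := u') (b := u) (k := h t)
    (fun a ha b hb hab => hchK.step a (hsegK ha) b (hsegK hb) hab) (by omega) (by omega)
  obtain ⟨a, haU, haA⟩ := hsegA hs
  have b6 := (hh s (hKZ (hsegK hs))).2.2.1 haU
  rw [hst] at b6
  have b7 := hS.ch.small (h t) b0 (b5.2.2.1 ht) a b6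
  have b8 := hfar a haA
  have b9 := b7.trans_le (min_le_right _ _)
  linarith

end Pool.Agent.H963AC
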